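import Pool.Agent.H370R2.Local

/-! # The Poisson-Jensen inequality -/

set_option autoImplicit false

open Complex Filter Topology Set MeasureTheory Metric Real
open scoped ComplexConjugate

namespace Q270SL

/-- the Poisson kernel is continuous on the circle -/
lemma pk_cont {R : ℝ} (hR : 0 < R) {w : ℂ} (hw : w ∈ ball (0 : ℂ) R) :
    Continuous (fun θ => poissonKernel 0 w (circleMap 0 R θ)) := by
  unfold poissonKernel
  simp only [sub_zero]
  refine Continuous.div ?_ ?_ ?_
  · fun_prop
  · fun_prop
  · intro θ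
    rw [mem_ball_zero_iff] at hw
    have h1 : ‖circleMap 0 R θ‖ = R := by rw [norm_circleMap_zero, abs_of_pos hR]
    have h2 : 0 < ‖circleMap 0 R θ - w‖ := by
      have := norm_sub_norm_le (circleMap 0 R θ) w
      linarith
    positivity

lemma pk_nonneg {R : ℝ} {w z : ℂ} (hw : w ∈ ball (0 : ℂ) R) (hz : z ∈ sphere (0 : ℂ) R) :
    0 ≤ poissonKernel 0 w z := by
  unfold poissonKernel
  simp only [sub_zero]
  rw [mem_ball_zero_iff] at hw
  rw [mem_sphere_zero_iff_norm] at hz
  apply div_nonneg _ (by positivity)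
  rw [hz]
  have := norm_nonneg w
  nlinarith

lemma pk_int {R : ℝ} (hR : 0 < R) {w : ℂ} (hw : w ∈ ball (0 : ℂ) R) {h : ℂ → ℝ}
    (hh : CircleIntegrable h 0 R) : CircleIntegrable (fun z => poissonKernel 0 w z * h z) 0 R := by
  unfold CircleIntegrable at hh ⊢
  exact hh.continuousOn_mul (pk_cont hR hw).continuousOn

lemma log_sub_int {R : ℝ} (ρ : ℂ) : CircleIntegrable (fun z => Real.log ‖z - ρ‖) 0 R :=
  (analyticOnNhd_id.sub analyticOnNhd_const).meromorphicOn.circleIntegrable_log_norm

/-- one factor -/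
lemma one_factor {R : ℝ} (hR : 0 < R) {w ρ : ℂ} (hw : w ∈ ball (0 : ℂ) R)
    (hρ : ρ ∈ closedBall (0 : ℂ) R) (hne : w ≠ ρ) :
    Real.log ‖w - ρ‖ ≤ circleAverage (fun z => poissonKernel 0 w z * Real.log ‖z - ρ‖) 0 R := by
  rcases eq_or_lt_of_le (mem_closedBall_zero_iff.1 hρ) with h | h
  · have h1 := circleAverage_re_herglotzRieszKernel_mul_log (w := w) (ρ := ρ) (c := 0) (R := R)
      (mem_sphere_zero_iff_norm.2 h) hw
    rw [← h1, poissonKernel_eq_re_herglotzRieszKernel]
    exact le_of_eq rfl
  · have hw' := mem_ball_zero_iff.1 hw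
    set q : ℂ → ℂ := fun z => (R : ℂ) - conj ρ * z / R with hq
    have hqne : ∀ z ∈ closedBall (0 : ℂ) R, q z ≠ 0 := by
      intro z hz h0
      simp only [hq] at h0
      rw [mem_closedBall_zero_iff] at hz
      have h2 : (R : ℂ) = conj ρ * z / R := sub_eq_zero.1 h0
      have h3 : R = ‖ρ‖ * ‖z‖ / R := by
        have := congrArg norm h2
        rwa [norm_div, norm_mul, RCLike.norm_conj, Complex.norm_real, Real.norm_of_nonneg hR.le] at this
      rw [eq_div_iff hR.ne'] at h3
      have := mul_le_mul_of_nonneg_left hz (norm_nonneg ρ)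
      have := mul_lt_mul_of_pos_right h hR
      linarith
    have hqa : ∀ z, AnalyticAt ℂ q z := fun z => by
      simp only [hq]
      fun_prop
    have hharm : InnerProductSpace.HarmonicOnNhd (fun z => Real.log ‖q z‖) (closedBall 0 R) :=
      fun z hz => (hqa z).harmonicAt_log_norm (hqne z hz)
    have h1 := hharm.circleAverage_poissonKernel_smul hw
    have h2 : circleAverage (fun z => poissonKernel 0 w z * Real.log ‖z - ρ‖) 0 R =
        circleAverage (poissonKernel 0 w • (fun z => Real.log ‖q z‖)) 0 R := by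
      apply circleAverage_congr_sphere
      intro z hz
      rw [abs_of_pos hR, mem_sphere_zero_iff_norm] at hz
      simp only [Pi.smul_apply', smul_eq_mul]
      congr 2
      have hz0 : conj z * z = (R : ℂ) ^ 2 := by
        rw [mul_comm, Complex.mul_conj, Complex.normSq_eq_norm_sq, hz]
        push_cast
        ring
      have h3 : q z * R = z * conj (z - ρ) := by
        simp only [hq]
        have hRC : (R : ℂ) ≠ 0 := by exact_mod_cast hR.ne'
        field_simp
        rw [map_sub, ← hz0]
        ring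
      have h4 : ‖q z‖ * R = R * ‖z - ρ‖ := by
        have := congrArg norm h3
        rwa [norm_mul, norm_mul, RCLike.norm_conj, Complex.norm_real, Real.norm_of_nonneg hR.le,
          hz] at this
      have h5 : ‖q z‖ * R = ‖z - ρ‖ * R := by linarith
      exact (mul_right_cancel₀ hR.ne' h5).symm
    rw [h2, h1]
    apply Real.log_le_log
    · rw [norm_pos_iff]
      exact sub_ne_zero.2 hne
    · -- comparison of the two absolute values
      have h3 : ‖w - ρ‖ ^ 2 * R ^ 2 ≤ ‖q w‖ ^ 2 * R ^ 2 := by
        have e1 : ‖q w‖ ^ 2 * R ^ 2 = ‖(R : ℂ) ^ 2 - conj ρ * w‖ ^ 2 := by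
          have : (R : ℂ) ^ 2 - conj ρ * w = q w * R := by
            simp only [hq]
            have hRC : (R : ℂ) ≠ 0 := by exact_mod_cast hR.ne'
            field_simp
          rw [this, norm_mul, mul_pow, Complex.norm_real, Real.norm_of_nonneg hR.le]
        rw [e1, ← Complex.normSq_eq_norm_sq, ← Complex.normSq_eq_norm_sq, Complex.normSq_apply,
          Complex.normSq_apply]
        have h6 : ρ.re * ρ.re + ρ.im * ρ.im ≤ R * R := by
          have := Complex.normSq_apply ρ
          rw [← this, Complex.normSq_eq_norm_sq]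
          nlinarith [norm_nonneg ρ]
        have h7 : w.re * w.re + w.im * w.im ≤ R * R := by
          have := Complex.normSq_apply w
          rw [← this, Complex.normSq_eq_norm_sq]
          nlinarith [norm_nonneg w]
        have e2 : ((R : ℂ) ^ 2 - conj ρ * w).re = R ^ 2 - (ρ.re * w.re + ρ.im * w.im) := by
          simp [pow_two]
        have e3 : ((R : ℂ) ^ 2 - conj ρ * w).im = -(ρ.re * w.im - ρ.im * w.re) := by
          simp [pow_two]
          ring
        rw [e2, e3]
        simp only [sub_re, sub_im]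
        nlinarith [mul_nonneg (sub_nonneg.2 h6) (sub_nonneg.2 h7)]
      have h4 : ‖w - ρ‖ ^ 2 ≤ ‖q w‖ ^ 2 := le_of_mul_le_mul_right h3 (by positivity)
      exact (pow_le_pow_iff_left₀ (norm_nonneg _) (norm_nonneg _) two_ne_zero).1 h4

/-- the product of linear factors and a function without zeros -/
lemma pj_multi {R : ℝ} (hR : 0 < R) {w : ℂ} (hw : w ∈ ball (0 : ℂ) R) (s : Multiset ℂ)
    (hs : ∀ ρ ∈ s, ρ ∈ closedBall (0 : ℂ) R ∧ w ≠ ρ) (g : ℂ → ℂ)
    (hg : AnalyticOnNhd ℂ g (closedBall 0 R)) (hg0 : ∀ z ∈ closedBall (0 : ℂ) R, g z ≠ 0) :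
    CircleIntegrable (fun z => (s.map (fun ρ => Real.log ‖z - ρ‖)).sum + Real.log ‖g z‖) 0 R ∧
    (s.map (fun ρ => Real.log ‖w - ρ‖)).sum + Real.log ‖g w‖ ≤
      circleAverage (fun z => poissonKernel 0 w z *
        ((s.map (fun ρ => Real.log ‖z - ρ‖)).sum + Real.log ‖g z‖)) 0 R := by
  induction s using Multiset.induction with
  | empty =>
    simp only [Multiset.map_zero, Multiset.sum_zero, zero_add]
    have hharm : InnerProductSpace.HarmonicOnNhd (fun z => Real.log ‖g z‖) (closedBall 0 R) :=
      fun z hz => (hg z hz).harmonicAt_log_norm (hg0 z hz)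
    refine ⟨?_, le_of_eq (hharm.circleAverage_poissonKernel_smul hw).symm⟩
    exact (hg.mono (by rw [abs_of_pos hR]; exact sphere_subset_closedBall)).meromorphicOn.circleIntegrable_log_norm
  | cons ρ s ih =>
    obtain ⟨h1, h2⟩ := ih fun ρ' h => hs ρ' (Multiset.mem_cons_of_mem h)
    have h3 := hs ρ (Multiset.mem_cons_self ρ s)
    have h4 := one_factor hR hw h3.1 h3.2
    have e1 : (fun z => ((ρ ::ₘ s).map (fun ρ => Real.log ‖z - ρ‖)).sum + Real.log ‖g z‖) =
        (fun z => Real.log ‖z - ρ‖) +
          (fun z => (s.map (fun ρ => Real.log ‖z - ρ‖)).sum + Real.log ‖g z‖) := by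
      funext z
      simp only [Multiset.map_cons, Multiset.sum_cons, Pi.add_apply]
      ring
    refine ⟨?_, ?_⟩
    · rw [e1]
      exact (log_sub_int ρ).add h1
    · have e2 : (fun z => poissonKernel 0 w z *
          (((ρ ::ₘ s).map (fun ρ => Real.log ‖z - ρ‖)).sum + Real.log ‖g z‖)) =
          (fun z => poissonKernel 0 w z * Real.log ‖z - ρ‖) + (fun z => poissonKernel 0 w z *
            ((s.map (fun ρ => Real.log ‖z - ρ‖)).sum + Real.log ‖g z‖)) := by
        funext z
        simp only [Multiset.map_cons, Multiset.sum_cons, Pi.add_apply]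
        ring
      rw [e2, circleAverage_add (pk_int hR hw (log_sub_int ρ)) (pk_int hR hw h1), Multiset.map_cons,
        Multiset.sum_cons]
      linarith

end Q270SL
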