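import Pool.Agent.Q270.SL.A

/-! # The Poisson-Jensen inequality for analytic functions -/

set_option autoImplicit false

open Complex Filter Topology Set MeasureTheory Metric Real
open scoped ComplexConjugate

namespace Q270SL

lemma log_Pf (s : Multiset ℂ) (z : ℂ) (h : ∀ ρ ∈ s, z ≠ ρ) :
    Real.log ‖H370.Loc.Pf s z‖ = (s.map (fun ρ => Real.log ‖z - ρ‖)).sum := by
  induction s using Multiset.induction with
  | empty => simp [H370.Loc.Pf_zero]
  | cons ρ s ih =>
    rw [H370.Loc.Pf_cons, norm_mul, Multiset.map_cons, Multiset.sum_cons, ← ih fun ρ' h' =>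
      h ρ' (Multiset.mem_cons_of_mem h')]
    apply Real.log_mul
    · rw [norm_ne_zero_iff]
      exact sub_ne_zero.2 (h ρ (Multiset.mem_cons_self ρ s))
    · rw [norm_ne_zero_iff]
      exact H370.Loc.Pf_ne_zero fun ρ' h' => h ρ' (Multiset.mem_cons_of_mem h')

/-- the circle averages do not see finitely many points -/
lemma avg_congr {R : ℝ} (hR : 0 < R) (S : Finset ℂ) (f₁ f₂ : ℂ → ℝ)
    (h : ∀ z ∈ sphere (0 : ℂ) R, z ∉ S → f₁ z = f₂ z) : circleAverage f₁ 0 R = circleAverage f₂ 0 R := by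
  apply circleAverage_congr_codiscreteWithin _ hR.ne'
  rw [abs_of_pos hR]
  have h1 : (S : Set ℂ)ᶜ ∈ codiscreteWithin (sphere (0 : ℂ) R) :=
    codiscreteWithin_mono (subset_univ _) (S.finite_toSet.compl_mem_codiscrete)
  filter_upwards [h1, self_mem_codiscreteWithin (sphere (0 : ℂ) R)] with z hz1 hz2
  exact h z hz2 (by simpa using hz1)

/-- **The Poisson-Jensen inequality.** -/
theorem pj {R R' : ℝ} (hR : 0 < R) (hRR : R < R') (F : ℂ → ℂ) (hF : AnalyticOnNhd ℂ F (closedBall 0 R'))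
    (h0 : F 0 ≠ 0) {w : ℂ} (hw : w ∈ ball (0 : ℂ) R) (hFw : F w ≠ 0) :
    Real.log ‖F w‖ ≤ circleAverage (fun z => poissonKernel 0 w z * Real.log ‖F z‖) 0 R := by
  classical
  obtain ⟨M, hM⟩ := (isCompact_closedBall (0 : ℂ) R').exists_bound_of_continuousOn hF.continuousOn
  obtain ⟨s, g, hs, hg, hfg, hg0, -⟩ := H370.Loc.extract (f := F) (c := 0) (r := R) (R := R')
    (M := max M 1) hR hRR (le_max_right _ _) hF h0 (fun z hz => (hM z hz).trans (le_max_left _ _))
  have hsw : ∀ ρ ∈ s, w ≠ ρ := by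
    intro ρ hρ he
    exact hFw (by rw [he]; exact (hs ρ hρ).2)
  obtain ⟨-, h2⟩ := pj_multi hR hw s (fun ρ hρ => ⟨(hs ρ hρ).1, hsw ρ hρ⟩) g
    (hg.mono (closedBall_subset_closedBall hRR.le)) hg0
  have h3 : Real.log ‖F w‖ = (s.map (fun ρ => Real.log ‖w - ρ‖)).sum + Real.log ‖g w‖ := by
    rw [hfg w, norm_mul, Real.log_mul, log_Pf s w hsw]
    · rw [norm_ne_zero_iff]
      exact H370.Loc.Pf_ne_zero hsw
    · rw [norm_ne_zero_iff]
      exact hg0 w (ball_subset_closedBall hw)
  rw [h3]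
  refine h2.trans (le_of_eq ?_)
  apply avg_congr hR s.toFinset
  intro z hz hzs
  rw [Multiset.mem_toFinset] at hzs
  have hzs' : ∀ ρ ∈ s, z ≠ ρ := fun ρ hρ he => hzs (by rw [he]; exact hρ)
  congr 1
  rw [hfg z, norm_mul, Real.log_mul, log_Pf s z hzs']
  · rw [norm_ne_zero_iff]
    exact H370.Loc.Pf_ne_zero hzs'
  · rw [norm_ne_zero_iff]
    exact hg0 z (sphere_subset_closedBall hz)

lemma log_int {R : ℝ} (hR : 0 < R) {F : ℂ → ℂ} (hF : AnalyticOnNhd ℂ F (closedBall 0 R)) :
    CircleIntegrable (fun z => Real.log ‖F z‖) 0 R :=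
  (hF.mono (by rw [abs_of_pos hR]; exact sphere_subset_closedBall)).meromorphicOn.circleIntegrable_log_norm

/-- the average of the Poisson kernel -/
lemma pk_avg {R : ℝ} {w : ℂ} (hw : w ∈ ball (0 : ℂ) R) :
    circleAverage (fun z => poissonKernel 0 w z) 0 R = 1 := by
  have hharm : InnerProductSpace.HarmonicOnNhd (fun _ : ℂ => (1 : ℝ)) (closedBall 0 R) :=
    fun z _ => InnerProductSpace.harmonicAt_const _
  have h1 := hharm.circleAverage_poissonKernel_smul hw
  rw [← h1]
  congr 1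
  funext z
  simp

/-- **The lower bound for the circle average**: on the circle the function is at most `M`; apart from the
points at which one of two Poisson kernels is at least `A`, it is at least `M - d`; it is at least `1` in
absolute value at the base points of the two kernels. -/
theorem avg_lower {R R' : ℝ} (hR : 0 < R) (hRR : R < R') (F : ℂ → ℂ)
    (hF : AnalyticOnNhd ℂ F (closedBall 0 R')) (h0 : F 0 ≠ 0) {w₁ w₂ : ℂ} (hw₁ : w₁ ∈ ball (0 : ℂ) R)
    (hw₂ : w₂ ∈ ball (0 : ℂ) R) (h1 : 1 ≤ ‖F w₁‖) (h2 : 1 ≤ ‖F w₂‖) {M d A : ℝ} (hA : 0 < A) (hd : 0 ≤ d)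
    (hup : ∀ z ∈ sphere (0 : ℂ) R, Real.log ‖F z‖ ≤ M)
    (hlo : ∀ z ∈ sphere (0 : ℂ) R, M - d ≤ Real.log ‖F z‖ ∨ A ≤ poissonKernel 0 w₁ z ∨
      A ≤ poissonKernel 0 w₂ z) :
    M - d - 2 * M / A ≤ circleAverage (fun z => Real.log ‖F z‖) 0 R := by
  have hi := log_int hR (hF.mono (closedBall_subset_closedBall hRR.le))
  have hp : ∀ {w : ℂ}, w ∈ ball (0 : ℂ) R → 1 ≤ ‖F w‖ →
      circleAverage (fun z => poissonKernel 0 w z * (M - Real.log ‖F z‖)) 0 R ≤ M := by
    intro w hw hFw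
    have h3 := pj hR hRR F hF h0 hw (norm_pos_iff.1 (by linarith))
    have h4 : 0 ≤ Real.log ‖F w‖ := Real.log_nonneg hFw
    have hc : CircleIntegrable (fun _ : ℂ => M) 0 R := circleIntegrable_const M 0 R
    have e1 : (fun z => poissonKernel 0 w z * (M - Real.log ‖F z‖)) =
        (fun z => poissonKernel 0 w z * M) - (fun z => poissonKernel 0 w z * Real.log ‖F z‖) := by
      funext z
      simp only [Pi.sub_apply]
      ring
    have e2 : circleAverage (fun z => poissonKernel 0 w z * M) 0 R = M := by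
      have : (fun z => poissonKernel 0 w z * M) = (fun z => M • poissonKernel 0 w z) := by
        funext z
        rw [smul_eq_mul, mul_comm]
      rw [this, circleAverage_fun_smul, pk_avg hw, smul_eq_mul, mul_one]
    rw [e1, circleAverage_sub (pk_int hR hw hc) (pk_int hR hw hi), e2]
    linarith
  have hp1 := hp hw₁ h1
  have hp2 := hp hw₂ h2
  have hDi : CircleIntegrable (fun z => M - Real.log ‖F z‖) 0 R :=
    (circleIntegrable_const M 0 R).sub hi
  have hi1 := pk_int hR hw₁ hDi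
  have hi2 := pk_int hR hw₂ hDi
  -- the pointwise bound
  have hpt : ∀ z ∈ sphere (0 : ℂ) |R|, M - Real.log ‖F z‖ ≤ d + A⁻¹ *
      (poissonKernel 0 w₁ z * (M - Real.log ‖F z‖) + poissonKernel 0 w₂ z * (M - Real.log ‖F z‖)) := by
    intro z hz
    rw [abs_of_pos hR] at hz
    have h5 := hup z hz
    have h6 := pk_nonneg hw₁ hz
    have h7 := pk_nonneg hw₂ hz
    have h8 : 0 ≤ M - Real.log ‖F z‖ := by linarith
    have h9 : 0 ≤ poissonKernel 0 w₁ z * (M - Real.log ‖F z‖) := mul_nonneg h6 h8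
    have h10 : 0 ≤ poissonKernel 0 w₂ z * (M - Real.log ‖F z‖) := mul_nonneg h7 h8
    rcases hlo z hz with h | h | h
    · have : 0 ≤ A⁻¹ * (poissonKernel 0 w₁ z * (M - Real.log ‖F z‖) +
        poissonKernel 0 w₂ z * (M - Real.log ‖F z‖)) := by positivity
      linarith
    · have h11 : A * (M - Real.log ‖F z‖) ≤ poissonKernel 0 w₁ z * (M - Real.log ‖F z‖) :=
        mul_le_mul_of_nonneg_right h h8
      have h12 : M - Real.log ‖F z‖ ≤ A⁻¹ * (poissonKernel 0 w₁ z * (M - Real.log ‖F z‖)) := by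
        rw [← div_eq_inv_mul, le_div_iff₀ hA]
        linarith
      have : 0 ≤ A⁻¹ * (poissonKernel 0 w₂ z * (M - Real.log ‖F z‖)) := by positivity
      rw [mul_add]
      linarith
    · have h11 : A * (M - Real.log ‖F z‖) ≤ poissonKernel 0 w₂ z * (M - Real.log ‖F z‖) :=
        mul_le_mul_of_nonneg_right h h8
      have h12 : M - Real.log ‖F z‖ ≤ A⁻¹ * (poissonKernel 0 w₂ z * (M - Real.log ‖F z‖)) := by
        rw [← div_eq_inv_mul, le_div_iff₀ hA]
        linarith
      have : 0 ≤ A⁻¹ * (poissonKernel 0 w₁ z * (M - Real.log ‖F z‖)) := by positivity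
      rw [mul_add]
      linarith
  have hR1 : CircleIntegrable (fun z => d + A⁻¹ *
      (poissonKernel 0 w₁ z * (M - Real.log ‖F z‖) + poissonKernel 0 w₂ z * (M - Real.log ‖F z‖))) 0 R :=
    (circleIntegrable_const d 0 R).add (IntervalIntegrable.const_mul (hi1.add hi2) _)
  have hmono := circleAverage_mono hDi hR1 hpt
  have e3 : circleAverage (fun z => M - Real.log ‖F z‖) 0 R =
      M - circleAverage (fun z => Real.log ‖F z‖) 0 R := by
    have : (fun z => M - Real.log ‖F z‖) = (fun _ => M) - (fun z => Real.log ‖F z‖) := rfl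
    rw [this, circleAverage_sub (circleIntegrable_const M 0 R) hi, circleAverage_const]
  have e4 : circleAverage (fun z => d + A⁻¹ *
      (poissonKernel 0 w₁ z * (M - Real.log ‖F z‖) + poissonKernel 0 w₂ z * (M - Real.log ‖F z‖))) 0 R =
      d + A⁻¹ * (circleAverage (fun z => poissonKernel 0 w₁ z * (M - Real.log ‖F z‖)) 0 R +
        circleAverage (fun z => poissonKernel 0 w₂ z * (M - Real.log ‖F z‖)) 0 R) := by
    have e5 : (fun z => d + A⁻¹ * (poissonKernel 0 w₁ z * (M - Real.log ‖F z‖) +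
        poissonKernel 0 w₂ z * (M - Real.log ‖F z‖))) = (fun _ => d) +
        (fun z => A⁻¹ • ((fun z => poissonKernel 0 w₁ z * (M - Real.log ‖F z‖)) +
          (fun z => poissonKernel 0 w₂ z * (M - Real.log ‖F z‖))) z) := rfl
    have hq : CircleIntegrable (fun z => A⁻¹ • ((fun z => poissonKernel 0 w₁ z * (M - Real.log ‖F z‖)) +
          (fun z => poissonKernel 0 w₂ z * (M - Real.log ‖F z‖))) z) 0 R :=
      IntervalIntegrable.const_mul (hi1.add hi2) A⁻¹
    rw [e5, circleAverage_add (circleIntegrable_const d 0 R) hq,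
      circleAverage_const, circleAverage_fun_smul, circleAverage_add hi1 hi2, smul_eq_mul]
  rw [e3, e4] at hmono
  have h13 : A⁻¹ * (circleAverage (fun z => poissonKernel 0 w₁ z * (M - Real.log ‖F z‖)) 0 R +
      circleAverage (fun z => poissonKernel 0 w₂ z * (M - Real.log ‖F z‖)) 0 R) ≤ A⁻¹ * (2 * M) :=
    mul_le_mul_of_nonneg_left (by linarith) (by positivity)
  have h14 : A⁻¹ * (2 * M) = 2 * M / A := by rw [div_eq_inv_mul]
  linarith

end Q270SL
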