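import Pool.Agent.Q270.SL.A2
import Mathlib.Analysis.SpecialFunctions.Complex.Arctan

/-! # The conformal map of the disc onto a strip -/

set_option autoImplicit false

open Complex Filter Topology Set MeasureTheory Metric
open scoped ComplexConjugate

namespace Q270SL

/-- the quotient in the definition of the arctangent -/
noncomputable def mm (z : ℂ) : ℂ := (1 + z * I) / (1 - z * I)

lemma den_ne {z : ℂ} (hz : ‖z‖ < 1) : 1 - z * I ≠ 0 := by
  intro h
  have h1 : z * I = 1 := (sub_eq_zero.1 h).symm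
  have h2 : ‖z * I‖ = 1 := by rw [h1, norm_one]
  rw [norm_mul, Complex.norm_I, mul_one] at h2
  linarith

lemma num_ne {z : ℂ} (hz : ‖z‖ < 1) : 1 + z * I ≠ 0 := by
  intro h
  have h1 : z * I = -1 := by linear_combination h
  have h2 : ‖z * I‖ = 1 := by rw [h1, norm_neg, norm_one]
  rw [norm_mul, Complex.norm_I, mul_one] at h2
  linarith

/-- the real and imaginary parts of the quotient -/
lemma mm_parts (z : ℂ) : (mm z).re * normSq (1 - z * I) = 1 - normSq z ∧
    (mm z).im * normSq (1 - z * I) = 2 * z.re := by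
  unfold mm
  rcases eq_or_ne (normSq (1 - z * I)) 0 with h | h
  · have h0 : 1 - z * I = 0 := normSq_eq_zero.1 h
    have h1 : z * I = 1 := (sub_eq_zero.1 h0).symm
    have hz : z = -I := by
      have : z * I * I = 1 * I := by rw [h1]
      rw [mul_assoc, I_mul_I, one_mul] at this
      linear_combination -this
    rw [h, hz]
    simp
  · rw [div_re, div_im]
    have e1 : (1 + z * I).re = 1 - z.im := by simp; ring
    have e2 : (1 + z * I).im = z.re := by simp
    have e3 : (1 - z * I).re = 1 + z.im := by simp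
    have e4 : (1 - z * I).im = -z.re := by simp
    rw [e1, e2, e3, e4]
    constructor
    · field_simp
      rw [normSq_apply z]
      ring
    · field_simp
      ring

lemma mm_re_pos {z : ℂ} (hz : ‖z‖ < 1) : 0 < (mm z).re := by
  have h1 := (mm_parts z).1
  have h2 : 0 < normSq (1 - z * I) := normSq_pos.2 (den_ne hz)
  have h3 : 0 < 1 - normSq z := by
    rw [normSq_eq_norm_sq]
    nlinarith [norm_nonneg z]
  rw [← h1] at h3
  exact pos_of_mul_pos_left h3 h2.le

lemma mm_ne {z : ℂ} (hz : ‖z‖ < 1) : mm z ≠ 0 := by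
  intro h
  have := mm_re_pos hz
  rw [h] at this
  simp at this

/-- the conformal map of the disc onto the strip of half-width `b` -/
noncomputable def psi (b : ℝ) (z : ℂ) : ℂ := ((4 * b / Real.pi : ℝ) : ℂ) * Complex.arctan z

lemma psi_zero (b : ℝ) : psi b 0 = 0 := by
  unfold psi Complex.arctan
  simp

lemma arctan_re (z : ℂ) : (Complex.arctan z).re = (mm z).arg / 2 := by
  unfold Complex.arctan mm
  have : -I / 2 * Complex.log ((1 + z * I) / (1 - z * I)) =
      ((1 / 2 : ℝ) : ℂ) * (-I * Complex.log ((1 + z * I) / (1 - z * I))) := by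
    push_cast
    ring
  rw [this, re_ofReal_mul]
  simp [Complex.log_im]
  ring

lemma arctan_im (z : ℂ) : (Complex.arctan z).im = -(Real.log ‖mm z‖ / 2) := by
  unfold Complex.arctan mm
  have : -I / 2 * Complex.log ((1 + z * I) / (1 - z * I)) =
      ((1 / 2 : ℝ) : ℂ) * (-I * Complex.log ((1 + z * I) / (1 - z * I))) := by
    push_cast
    ring
  rw [this, im_ofReal_mul]
  simp [Complex.log_re]
  ring

lemma psi_re (b : ℝ) (z : ℂ) : (psi b z).re = 2 * b / Real.pi * (mm z).arg := by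
  unfold psi
  rw [re_ofReal_mul, arctan_re]
  ring

lemma psi_im (b : ℝ) (z : ℂ) : (psi b z).im = -(2 * b / Real.pi * Real.log ‖mm z‖) := by
  unfold psi
  rw [im_ofReal_mul, arctan_im]
  ring

lemma arg_lt {z : ℂ} (hz : ‖z‖ < 1) : |(mm z).arg| < Real.pi / 2 :=
  Complex.abs_arg_lt_pi_div_two_iff.2 (Or.inl (mm_re_pos hz))

lemma psi_re_lt {b : ℝ} (hb : 0 < b) {z : ℂ} (hz : ‖z‖ < 1) : |(psi b z).re| < b := by
  rw [psi_re, abs_mul, abs_of_pos (by positivity)]
  have h1 := arg_lt hz
  have hpi := Real.pi_pos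
  calc 2 * b / Real.pi * |(mm z).arg| < 2 * b / Real.pi * (Real.pi / 2) :=
        mul_lt_mul_of_pos_left h1 (by positivity)
    _ = b := by field_simp

lemma psi_im_le {b : ℝ} (hb : 0 < b) {z : ℂ} {r : ℝ} (hz : ‖z‖ ≤ r) (hr : r < 1) :
    |(psi b z).im| ≤ 2 * b / Real.pi * Real.log ((1 + r) / (1 - r)) := by
  have hr0 : 0 ≤ r := (norm_nonneg z).trans hz
  have hz1 : ‖z‖ < 1 := hz.trans_lt hr
  rw [psi_im, abs_neg, abs_mul, abs_of_pos (by have := Real.pi_pos; positivity)]
  refine mul_le_mul_of_nonneg_left ?_ (by have := Real.pi_pos; positivity)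
  have hn1 : ‖1 + z * I‖ ≤ 1 + r := by
    refine (norm_add_le _ _).trans ?_
    rw [norm_one, norm_mul, Complex.norm_I, mul_one]
    linarith
  have hn2 : ‖1 - z * I‖ ≤ 1 + r := by
    refine (norm_sub_le _ _).trans ?_
    rw [norm_one, norm_mul, Complex.norm_I, mul_one]
    linarith
  have hn3 : 1 - r ≤ ‖1 + z * I‖ := by
    have := norm_sub_norm_le (1 : ℂ) (-(z * I))
    rw [norm_one, norm_neg, norm_mul, Complex.norm_I, mul_one, sub_neg_eq_add] at this
    linarith
  have hn4 : 1 - r ≤ ‖1 - z * I‖ := by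
    have := norm_sub_norm_le (1 : ℂ) (z * I)
    rw [norm_one, norm_mul, Complex.norm_I, mul_one] at this
    linarith
  have h1r : 0 < 1 - r := by linarith
  have hq : ‖mm z‖ = ‖1 + z * I‖ / ‖1 - z * I‖ := by
    unfold mm
    rw [norm_div]
  have hq0 : 0 < ‖mm z‖ := norm_pos_iff.2 (mm_ne hz1)
  rw [abs_le]
  constructor
  · rw [← Real.log_inv]
    apply Real.log_le_log (by positivity)
    rw [inv_div, hq]
    exact div_le_div₀ (norm_nonneg _) hn3 (by linarith) hn2
  · apply Real.log_le_log hq0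
    rw [hq]
    exact div_le_div₀ (by linarith) hn1 h1r hn4

/-- points over the outer part of the strip -/
lemma psi_re_ge {b t : ℝ} (hb : 0 < b) {z : ℂ} (hz : ‖z‖ < 1) (h : t * (1 - ‖z‖ ^ 2) ≤ 2 * z.re) :
    2 * b / Real.pi * Real.arctan t ≤ (psi b z).re := by
  rw [psi_re]
  refine mul_le_mul_of_nonneg_left ?_ (by have := Real.pi_pos; positivity)
  have h1 := arg_lt hz
  rw [abs_lt] at h1
  rw [← Real.arctan_tan (by linarith [h1.1]) h1.2, Complex.tan_arg]
  apply Real.arctan_strictMono.monotone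
  have h2 := mm_parts z
  have h3 : 0 < normSq (1 - z * I) := normSq_pos.2 (den_ne hz)
  rw [le_div_iff₀ (mm_re_pos hz)]
  have h4 : t * (mm z).re * normSq (1 - z * I) ≤ (mm z).im * normSq (1 - z * I) := by
    rw [mul_assoc, h2.1, h2.2, normSq_eq_norm_sq]
    exact h
  exact le_of_mul_le_mul_right h4 h3

lemma psi_re_le {b t : ℝ} (hb : 0 < b) {z : ℂ} (hz : ‖z‖ < 1) (h : t * (1 - ‖z‖ ^ 2) ≤ -(2 * z.re)) :
    (psi b z).re ≤ -(2 * b / Real.pi * Real.arctan t) := by
  rw [psi_re]
  rw [← mul_neg]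
  refine mul_le_mul_of_nonneg_left ?_ (by have := Real.pi_pos; positivity)
  have h1 := arg_lt hz
  rw [abs_lt] at h1
  rw [← Real.arctan_neg, ← Real.arctan_tan (by linarith [h1.1]) h1.2, Complex.tan_arg]
  apply Real.arctan_strictMono.monotone
  have h2 := mm_parts z
  have h3 : 0 < normSq (1 - z * I) := normSq_pos.2 (den_ne hz)
  rw [div_le_iff₀ (mm_re_pos hz)]
  have h4 : (mm z).im * normSq (1 - z * I) ≤ -t * (mm z).re * normSq (1 - z * I) := by
    rw [mul_assoc, h2.1, h2.2, normSq_eq_norm_sq]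
    linarith
  exact le_of_mul_le_mul_right h4 h3

lemma ne_I {z : ℂ} (hz : ‖z‖ < 1) : z ≠ I ∧ z ≠ -I := by
  constructor
  · rintro rfl
    rw [Complex.norm_I] at hz
    exact lt_irrefl _ hz
  · rintro rfl
    rw [norm_neg, Complex.norm_I] at hz
    exact lt_irrefl _ hz

lemma tan_psi {b : ℝ} (hb : 0 < b) {z : ℂ} (hz : ‖z‖ < 1) :
    Complex.tan (((Real.pi / (4 * b) : ℝ) : ℂ) * psi b z) = z := by
  have h1 : ((Real.pi / (4 * b) : ℝ) : ℂ) * psi b z = Complex.arctan z := by
    unfold psi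
    rw [← mul_assoc, ← ofReal_mul]
    have : Real.pi / (4 * b) * (4 * b / Real.pi) = 1 := by
      have := Real.pi_pos
      field_simp
    rw [this, ofReal_one, one_mul]
  rw [h1]
  exact Complex.tan_arctan (ne_I hz).1 (ne_I hz).2

lemma psi_tan {b : ℝ} (hb : 0 < b) {w : ℂ} (hw : |w.re| < b) :
    psi b (Complex.tan (((Real.pi / (4 * b) : ℝ) : ℂ) * w)) = w := by
  have hpi := Real.pi_pos
  have h1 : |(((Real.pi / (4 * b) : ℝ) : ℂ) * w).re| < Real.pi / 4 := by
    rw [re_ofReal_mul, abs_mul, abs_of_pos (by positivity)]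
    calc Real.pi / (4 * b) * |w.re| < Real.pi / (4 * b) * b := mul_lt_mul_of_pos_left hw (by positivity)
      _ = Real.pi / 4 := by field_simp
  rw [abs_lt] at h1
  unfold psi
  rw [Complex.arctan_tan, ← mul_assoc, ← ofReal_mul]
  · have : 4 * b / Real.pi * (Real.pi / (4 * b)) = 1 := by field_simp
    rw [this, ofReal_one, one_mul]
  · intro h
    have := congrArg Complex.re h
    have h2 : ((Real.pi : ℂ) / 2).re = Real.pi / 2 := by
      have : ((Real.pi : ℂ) / 2) = ((Real.pi / 2 : ℝ) : ℂ) := by push_cast; ring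
      rw [this, ofReal_re]
    rw [h2] at this
    linarith [h1.2]
  · linarith [h1.1]
  · linarith [h1.2]

/-- the derivative -/
lemma psi_deriv {b : ℝ} {z : ℂ} (hz : ‖z‖ < 1) :
    HasDerivAt (psi b) (((4 * b / Real.pi : ℝ) : ℂ) * (1 / (1 + z ^ 2))) z := by
  unfold psi
  apply HasDerivAt.const_mul
  unfold Complex.arctan
  have hd := den_ne hz
  have hn := num_ne hz
  have hm : (1 + z * I) / (1 - z * I) ∈ slitPlane := by
    rw [mem_slitPlane_iff]
    left
    exact mm_re_pos hz
  have h1 : HasDerivAt (fun z : ℂ => (1 + z * I) / (1 - z * I))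
      ((I * (1 - z * I) - (1 + z * I) * (-I)) / (1 - z * I) ^ 2) z := by
    have e1 : HasDerivAt (fun z : ℂ => 1 + z * I) I z := by
      simpa using ((hasDerivAt_id z).mul_const I).const_add 1
    have e2 : HasDerivAt (fun z : ℂ => 1 - z * I) (-I) z := by
      simpa using ((hasDerivAt_id z).mul_const I).const_sub 1
    exact e1.div e2 hd
  have h2 := (h1.clog hm).const_mul (-I / 2)
  convert h2 using 1
  have hzz : 1 + z ^ 2 = (1 + z * I) * (1 - z * I) := by
    ring_nf
    rw [I_sq]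
    ring
  have hzz0 : 1 + z ^ 2 ≠ 0 := by
    rw [hzz]
    exact mul_ne_zero hn hd
  field_simp
  ring_nf
  rw [I_sq]
  ring

lemma psi_analytic {b : ℝ} {z : ℂ} (hz : ‖z‖ < 1) : AnalyticAt ℂ (psi b) z := by
  have h1 : DifferentiableOn ℂ (psi b) (ball 0 1) := fun w hw =>
    (psi_deriv (mem_ball_zero_iff.1 hw)).differentiableAt.differentiableWithinAt
  exact h1.analyticAt (isOpen_ball.mem_nhds (mem_ball_zero_iff.2 hz))

lemma psi_deriv_ne {b : ℝ} (hb : 0 < b) {z : ℂ} (hz : ‖z‖ < 1) : deriv (psi b) z ≠ 0 := by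
  rw [(psi_deriv hz).deriv]
  apply mul_ne_zero
  · rw [ofReal_ne_zero]
    have := Real.pi_pos
    positivity
  · apply one_div_ne_zero
    have hzz : 1 + z ^ 2 = (1 + z * I) * (1 - z * I) := by
      ring_nf
      rw [I_sq]
      ring
    rw [hzz]
    exact mul_ne_zero (num_ne hz) (den_ne hz)

end Q270SL
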