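import Pool.Agent.Q270.SL.B
import Pool.Agent.Q270.GD.C4

/-! # The weights of the zeros in a strip -/

set_option autoImplicit false

open Complex Filter Topology Set MeasureTheory Metric
open scoped ComplexConjugate

namespace Q270SL

/-- the weight of the point `w` for the strip of half-width `b` -/
noncomputable def wt (b : ℝ) (w : ℂ) : ℝ := -Real.log ‖Complex.tan (((Real.pi / (4 * b) : ℝ) : ℂ) * w)‖

lemma normSq_sin (z : ℂ) : normSq (Complex.sin z) = (Real.cosh (2 * z.im) - Real.cos (2 * z.re)) / 2 := by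
  have h : Complex.sin z = ((Real.sin z.re * Real.cosh z.im : ℝ) : ℂ) +
      ((Real.cos z.re * Real.sinh z.im : ℝ) : ℂ) * I := by
    conv_lhs => rw [← re_add_im z]
    rw [Complex.sin_add_mul_I]
    push_cast
    ring
  rw [h, normSq_add_mul_I, Real.cosh_two_mul, Real.cos_two_mul, ← sub_eq_zero]
  have h1 := Real.sin_sq_add_cos_sq z.re
  have h2 := Real.cosh_sq z.im
  have h3 : Real.sin z.re ^ 2 = 1 - Real.cos z.re ^ 2 := by linarith
  rw [mul_pow, mul_pow, h3, h2]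
  ring

lemma normSq_cos (z : ℂ) : normSq (Complex.cos z) = (Real.cosh (2 * z.im) + Real.cos (2 * z.re)) / 2 := by
  have h : Complex.cos z = ((Real.cos z.re * Real.cosh z.im : ℝ) : ℂ) +
      ((-(Real.sin z.re * Real.sinh z.im) : ℝ) : ℂ) * I := by
    conv_lhs => rw [← re_add_im z]
    rw [Complex.cos_add_mul_I]
    push_cast
    ring
  rw [h, normSq_add_mul_I, Real.cosh_two_mul, Real.cos_two_mul, ← sub_eq_zero]
  have h1 := Real.sin_sq_add_cos_sq z.re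
  have h2 := Real.cosh_sq z.im
  have h3 : Real.sin z.re ^ 2 = 1 - Real.cos z.re ^ 2 := by linarith
  rw [neg_sq, mul_pow, mul_pow, h3, h2]
  ring

/-- the two combinations of `cosh` and `cos` -/
noncomputable def cp (θ : ℝ) (w : ℂ) : ℝ := Real.cosh (θ * (Real.pi * w.im)) + Real.cos (θ * (Real.pi * w.re))

noncomputable def cm (θ : ℝ) (w : ℂ) : ℝ := Real.cosh (θ * (Real.pi * w.im)) - Real.cos (θ * (Real.pi * w.re))

lemma arg_re {b : ℝ} (w : ℂ) : 2 * ((((Real.pi / (4 * b) : ℝ) : ℂ) * w).re) = 1 / (2 * b) * (Real.pi * w.re) := by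
  rw [re_ofReal_mul]
  rcases eq_or_ne b 0 with rfl | hb
  · simp
  · field_simp
    ring

lemma arg_im {b : ℝ} (w : ℂ) : 2 * ((((Real.pi / (4 * b) : ℝ) : ℂ) * w).im) = 1 / (2 * b) * (Real.pi * w.im) := by
  rw [im_ofReal_mul]
  rcases eq_or_ne b 0 with rfl | hb
  · simp
  · field_simp
    ring

lemma tan_sq {b : ℝ} (w : ℂ) :
    ‖Complex.tan (((Real.pi / (4 * b) : ℝ) : ℂ) * w)‖ ^ 2 = cm (1 / (2 * b)) w / cp (1 / (2 * b)) w := by
  rw [← normSq_eq_norm_sq, Complex.tan, map_div₀, normSq_sin, normSq_cos, arg_re, arg_im]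
  unfold cm cp
  rw [div_div_div_cancel_right₀ (by norm_num)]

lemma cos_nonneg {θ x : ℝ} (hθ0 : 0 ≤ θ) (hθ : θ ≤ 1) (hx : |x| ≤ 1 / 2) :
    0 ≤ Real.cos (θ * (Real.pi * x)) := by
  have hpi := Real.pi_pos
  have h1 : |θ * (Real.pi * x)| ≤ Real.pi / 2 := by
    rw [abs_mul, abs_mul, abs_of_nonneg hθ0, abs_of_pos hpi]
    calc θ * (Real.pi * |x|) ≤ 1 * (Real.pi * (1 / 2)) :=
          mul_le_mul hθ (mul_le_mul_of_nonneg_left hx hpi.le) (by positivity) (by norm_num)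
      _ = _ := by ring
  exact Real.cos_nonneg_of_mem_Icc ⟨(abs_le.1 h1).1, (abs_le.1 h1).2⟩

lemma cp_ge {θ : ℝ} (hθ0 : 0 ≤ θ) (hθ : θ ≤ 1) {w : ℂ} (hw : |w.re| ≤ 1 / 2) : 1 ≤ cp θ w := by
  unfold cp
  have := cos_nonneg hθ0 hθ hw
  have := Real.one_le_cosh (θ * (Real.pi * w.im))
  linarith

/-- `cosh - cos` as a sum of squares -/
lemma cm_eq (θ : ℝ) (w : ℂ) : cm θ w = 2 * (Real.sinh (θ * (Real.pi * w.im / 2)) ^ 2 +
    Real.sin (θ * (Real.pi * w.re / 2)) ^ 2) := by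
  unfold cm
  have e1 : θ * (Real.pi * w.im) = 2 * (θ * (Real.pi * w.im / 2)) := by ring
  have e2 : θ * (Real.pi * w.re) = 2 * (θ * (Real.pi * w.re / 2)) := by ring
  rw [e1, e2, Real.cosh_two_mul, Real.cosh_sq, Real.cos_two_mul]
  have h1 := Real.sin_sq_add_cos_sq (θ * (Real.pi * w.re / 2))
  linarith

lemma sin_pos_abs {θ x : ℝ} (hθ0 : 0 < θ) (hθ : θ ≤ 1) (hx : |x| ≤ 1 / 2) (h0 : x ≠ 0) :
    0 < Real.sin (θ * (Real.pi * x / 2)) ^ 2 := by
  have hpi := Real.pi_pos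
  have h1 : |θ * (Real.pi * x / 2)| ≤ Real.pi / 4 := by
    have : θ * (Real.pi * x / 2) = θ * (Real.pi / 2 * x) := by ring
    rw [this, abs_mul, abs_mul, abs_of_nonneg hθ0.le, abs_of_pos (by positivity : 0 < Real.pi / 2)]
    calc θ * (Real.pi / 2 * |x|) ≤ 1 * (Real.pi / 2 * (1 / 2)) :=
          mul_le_mul hθ (mul_le_mul_of_nonneg_left hx (by positivity)) (by positivity) (by norm_num)
      _ = _ := by ring
  apply pow_pos_of_ne_zero_sq
  intro h
  rw [Real.sin_eq_zero_iff_of_lt_of_lt (by linarith [(abs_le.1 h1).1]) (by linarith [(abs_le.1 h1).2])] at h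
  have : Real.pi * x / 2 = 0 := by
    rcases mul_eq_zero.1 h with h2 | h2
    · exact absurd h2 hθ0.ne'
    · exact h2
  have : x = 0 := by
    have h3 : Real.pi * x = 0 := by linarith
    rcases mul_eq_zero.1 h3 with h2 | h2
    · exact absurd h2 hpi.ne'
    · exact h2
  exact h0 this
where
  pow_pos_of_ne_zero_sq {a : ℝ} (h : a ≠ 0) : 0 < a ^ 2 := by positivity

lemma cm_pos {θ : ℝ} (hθ0 : 0 < θ) (hθ : θ ≤ 1) {w : ℂ} (hw : |w.re| ≤ 1 / 2) (h0 : w ≠ 0) :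
    0 < cm θ w := by
  rw [cm_eq]
  rcases eq_or_ne w.re 0 with h | h
  · have him : w.im ≠ 0 := fun h2 => h0 (Complex.ext h h2)
    have h3 : Real.sinh (θ * (Real.pi * w.im / 2)) ≠ 0 := by
      rw [Ne, Real.sinh_eq_zero]
      have := Real.pi_pos
      positivity
    have : 0 < Real.sinh (θ * (Real.pi * w.im / 2)) ^ 2 := by positivity
    have := sq_nonneg (Real.sin (θ * (Real.pi * w.re / 2)))
    linarith
  · have := sin_pos_abs hθ0 hθ hw h
    have := sq_nonneg (Real.sinh (θ * (Real.pi * w.im / 2)))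
    linarith

/-- the weight in terms of `cosh` and `cos` -/
lemma wt_eq {b : ℝ} (hb : 1 / 2 ≤ b) {w : ℂ} (hw : |w.re| ≤ 1 / 2) (h0 : w ≠ 0) :
    wt b w = 1 / 2 * (Real.log (cp (1 / (2 * b)) w) - Real.log (cm (1 / (2 * b)) w)) := by
  have hθ0 : 0 < 1 / (2 * b) := by positivity
  have hθ : 1 / (2 * b) ≤ 1 := by
    rw [div_le_one (by linarith)]
    linarith
  have h1 := tan_sq (b := b) w
  have h2 := cm_pos hθ0 hθ hw h0
  have h3 : 0 < cp (1 / (2 * b)) w := by linarith [cp_ge hθ0.le hθ hw]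
  have h4 := congrArg Real.log h1
  rw [Real.log_pow, Real.log_div h2.ne' h3.ne', Nat.cast_ofNat] at h4
  unfold wt
  linarith

lemma tan_pos {b : ℝ} (hb : 1 / 2 ≤ b) {w : ℂ} (hw : |w.re| ≤ 1 / 2) (h0 : w ≠ 0) :
    0 < ‖Complex.tan (((Real.pi / (4 * b) : ℝ) : ℂ) * w)‖ := by
  have hθ0 : 0 < 1 / (2 * b) := by positivity
  have hθ : 1 / (2 * b) ≤ 1 := by
    rw [div_le_one (by linarith)]
    linarith
  have h1 := tan_sq (b := b) w
  have h2 := cm_pos hθ0 hθ hw h0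
  have h3 : 0 < cp (1 / (2 * b)) w := by linarith [cp_ge hθ0.le hθ hw]
  by_contra hcon
  have h4 : ‖Complex.tan (((Real.pi / (4 * b) : ℝ) : ℂ) * w)‖ = 0 := le_antisymm (not_lt.1 hcon) (norm_nonneg _)
  rw [h4] at h1
  have : 0 < cm (1 / (2 * b)) w / cp (1 / (2 * b)) w := by positivity
  rw [← h1] at this
  norm_num at this

lemma wt_nonneg {b : ℝ} (hb : 1 / 2 ≤ b) {w : ℂ} (hw : |w.re| ≤ 1 / 2) (h0 : w ≠ 0) : 0 ≤ wt b w := by
  rw [wt_eq hb hw h0]
  have hθ0 : 0 < 1 / (2 * b) := by positivity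
  have hθ : 1 / (2 * b) ≤ 1 := by
    rw [div_le_one (by linarith)]
    linarith
  have h2 := cm_pos hθ0 hθ hw h0
  have h3 : cm (1 / (2 * b)) w ≤ cp (1 / (2 * b)) w := by
    unfold cm cp
    linarith [cos_nonneg hθ0.le hθ hw]
  have := Real.log_le_log h2 h3
  linarith

lemma sinh_cmp {θ : ℝ} (x : ℝ) (hθ0 : 0 ≤ θ) (hθ : θ ≤ 1) :
    θ * Real.exp (-((1 - θ) * x)) * Real.sinh x ≤ Real.sinh (θ * x) := by
  rw [Real.sinh_eq, Real.sinh_eq]
  have h1 : Real.exp (-(θ * x)) ≤ (1 - θ) * Real.exp (θ * x) + θ * Real.exp ((θ - 2) * x) := by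
    have hc := convexOn_exp.2 (mem_univ (θ * x)) (mem_univ ((θ - 2) * x)) (by linarith : 0 ≤ 1 - θ) hθ0 (by ring)
    simp only [smul_eq_mul] at hc
    have e : (1 - θ) * (θ * x) + θ * ((θ - 2) * x) = -(θ * x) := by ring
    rw [e] at hc
    exact hc
  have e1 : Real.exp (-((1 - θ) * x)) * Real.exp x = Real.exp (θ * x) := by
    rw [← Real.exp_add]; congr 1; ring
  have e2 : Real.exp (-((1 - θ) * x)) * Real.exp (-x) = Real.exp ((θ - 2) * x) := by
    rw [← Real.exp_add]; congr 1; ring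
  have e3 : θ * Real.exp (-((1 - θ) * x)) * ((Real.exp x - Real.exp (-x)) / 2) =
      θ * (Real.exp (-((1 - θ) * x)) * Real.exp x - Real.exp (-((1 - θ) * x)) * Real.exp (-x)) / 2 := by ring
  rw [e3, e1, e2]
  linarith

lemma sinh_sq_cmp {θ : ℝ} (hθ0 : 0 ≤ θ) (hθ : θ ≤ 1) (x : ℝ) :
    θ ^ 2 * Real.exp (-((1 - θ) * (2 * |x|))) * Real.sinh x ^ 2 ≤ Real.sinh (θ * x) ^ 2 := by
  have h1 := sinh_cmp |x| hθ0 hθ
  have e1 : Real.sinh |x| ^ 2 = Real.sinh x ^ 2 := by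
    rcases abs_choice x with h | h
    · rw [h]
    · rw [h, Real.sinh_neg, neg_sq]
  have e2 : Real.sinh (θ * |x|) ^ 2 = Real.sinh (θ * x) ^ 2 := by
    rcases abs_choice x with h | h
    · rw [h]
    · rw [h, mul_neg, Real.sinh_neg, neg_sq]
  have e3 : Real.exp (-((1 - θ) * (2 * |x|))) = Real.exp (-((1 - θ) * |x|)) ^ 2 := by
    rw [← Real.exp_nat_mul]
    congr 1
    push_cast
    ring
  rw [e3, ← e1, ← e2]
  have h2 : 0 ≤ Real.sinh |x| := Real.sinh_nonneg_iff.2 (abs_nonneg x)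
  have h3 : 0 ≤ θ * Real.exp (-((1 - θ) * |x|)) * Real.sinh |x| := by positivity
  calc _ = (θ * Real.exp (-((1 - θ) * |x|)) * Real.sinh |x|) ^ 2 := by ring
    _ ≤ _ := pow_le_pow_left₀ h3 h1 2

lemma sin_cmp {θ x : ℝ} (hθ0 : 0 ≤ θ) (hθ : θ ≤ 1) (hx0 : 0 ≤ x) (hx : x ≤ Real.pi) :
    θ * Real.sin x ≤ Real.sin (θ * x) := by
  have hc := strictConcaveOn_sin_Icc.concaveOn.2 (x := x) ⟨hx0, hx⟩ (y := 0) ⟨le_rfl, Real.pi_pos.le⟩ hθ0
    (by linarith : 0 ≤ 1 - θ) (by ring)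
  simp only [smul_eq_mul, Real.sin_zero, mul_zero, add_zero] at hc
  exact hc

lemma sin_sq_cmp {θ x : ℝ} (hθ0 : 0 ≤ θ) (hθ : θ ≤ 1) (hx : |x| ≤ Real.pi) :
    θ ^ 2 * Real.sin x ^ 2 ≤ Real.sin (θ * x) ^ 2 := by
  have h1 := sin_cmp hθ0 hθ (abs_nonneg x) hx
  have e1 : Real.sin |x| ^ 2 = Real.sin x ^ 2 := by
    rcases abs_choice x with h | h
    · rw [h]
    · rw [h, Real.sin_neg, neg_sq]
  have e2 : Real.sin (θ * |x|) ^ 2 = Real.sin (θ * x) ^ 2 := by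
    rcases abs_choice x with h | h
    · rw [h]
    · rw [h, mul_neg, Real.sin_neg, neg_sq]
  rw [← e1, ← e2]
  have h2 : 0 ≤ Real.sin |x| := Real.sin_nonneg_of_nonneg_of_le_pi (abs_nonneg x) hx
  calc _ = (θ * Real.sin |x|) ^ 2 := by ring
    _ ≤ _ := pow_le_pow_left₀ (by positivity) h1 2

lemma cosh_mono_mul {θ : ℝ} (hθ0 : 0 ≤ θ) (hθ : θ ≤ 1) (s : ℝ) : Real.cosh (θ * s) ≤ Real.cosh s := by
  rw [Real.cosh_le_cosh, abs_mul, abs_of_nonneg hθ0]
  have := abs_nonneg s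
  nlinarith

lemma cosh_low {θ : ℝ} (hθ : θ ≤ 1) (s : ℝ) :
    Real.exp (-((1 - θ) * |s|)) * Real.cosh s ≤ Real.cosh (θ * s) := by
  have e1 : Real.cosh s = Real.cosh |s| := (Real.cosh_abs s).symm
  have e2 : Real.cosh (θ * s) = Real.cosh (θ * |s|) := by
    rcases abs_choice s with h | h
    · rw [h]
    · rw [h, mul_neg, Real.cosh_neg]
  rw [e1, e2, Real.cosh_eq, Real.cosh_eq]
  have hs := abs_nonneg s
  have e3 : Real.exp (-((1 - θ) * |s|)) * ((Real.exp |s| + Real.exp (-|s|)) / 2) =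
      (Real.exp (θ * |s|) + Real.exp (-((2 - θ) * |s|))) / 2 := by
    rw [mul_div_assoc', mul_add, ← Real.exp_add, ← Real.exp_add]
    congr 3 <;> ring
  rw [e3]
  have h1 : Real.exp (-((2 - θ) * |s|)) ≤ Real.exp (-(θ * |s|)) := by
    apply Real.exp_le_exp.2
    nlinarith
  linarith

lemma cos_mono_mul {θ : ℝ} (hθ0 : 0 ≤ θ) (hθ : θ ≤ 1) {t : ℝ} (ht : |t| ≤ Real.pi / 2) :
    Real.cos t ≤ Real.cos (θ * t) := by
  rw [← Real.cos_abs t, ← Real.cos_abs (θ * t), abs_mul, abs_of_nonneg hθ0]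
  have hs := abs_nonneg t
  apply Real.cos_le_cos_of_nonneg_of_le_pi (by positivity) (by linarith [Real.pi_pos])
  nlinarith

/-- the comparison of the weights for two strips -/
lemma wt_cmp {b : ℝ} (hb : 1 / 2 ≤ b) {w : ℂ} (hw : |w.re| ≤ 1 / 2) (h0 : w ≠ 0) :
    |wt b w - wt (1 / 2) w| ≤ (2 * b - 1) * (2 + 2 * |w.im|) := by
  obtain ⟨θ, hθd⟩ : ∃ θ : ℝ, θ = 1 / (2 * b) := ⟨_, rfl⟩
  have hb0 : 0 < 2 * b := by linarith
  have hθ0 : 0 < θ := by rw [hθd]; positivity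
  have hθ : θ ≤ 1 := by
    rw [hθd, div_le_one hb0]
    linarith
  have hpi := Real.pi_pos
  have hθb : θ * (2 * b) = 1 := by rw [hθd]; field_simp
  rw [wt_eq hb hw h0, wt_eq le_rfl hw h0, ← hθd]
  have e1 : (1 : ℝ) / (2 * (1 / 2)) = 1 := by norm_num
  rw [e1]
  have p1 := cp_ge hθ0.le hθ hw
  have p2 := cp_ge (θ := 1) zero_le_one le_rfl hw
  have m1 := cm_pos hθ0 hθ hw h0
  have m2 := cm_pos one_pos le_rfl hw h0
  obtain ⟨s, hs⟩ : ∃ s : ℝ, s = Real.pi * w.im := ⟨_, rfl⟩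
  obtain ⟨t, ht⟩ : ∃ t : ℝ, t = Real.pi * w.re := ⟨_, rfl⟩
  have ht2 : |t| ≤ Real.pi / 2 := by
    rw [ht, abs_mul, abs_of_pos hpi]
    nlinarith
  obtain ⟨E, hE⟩ : ∃ E : ℝ, E = Real.exp (-((1 - θ) * |s|)) := ⟨_, rfl⟩
  have hE0 : 0 < E := by rw [hE]; exact Real.exp_pos _
  have hE1 : E ≤ 1 := by
    rw [hE, Real.exp_le_one_iff]
    have := abs_nonneg s
    nlinarith
  have c0 := cos_nonneg zero_le_one le_rfl hw
  rw [one_mul, ← ht] at c0
  have c1 := cos_mono_mul hθ0.le hθ ht2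
  -- the four inequalities
  have i1 : E * cp 1 w ≤ cp θ w := by
    unfold cp
    rw [one_mul, one_mul, ← hs, ← ht, mul_add]
    have h1 := cosh_low hθ s
    rw [← hE] at h1
    have h2 : E * Real.cos t ≤ Real.cos t := by nlinarith
    linarith
  have i2 : cp θ w ≤ (1 + (1 - θ) * (Real.pi / 2)) * cp 1 w := by
    have h1 : cp θ w ≤ cp 1 w + (1 - θ) * (Real.pi / 2) := by
      unfold cp
      rw [one_mul, one_mul, ← hs, ← ht]
      have h2 := cosh_mono_mul hθ0.le hθ s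
      have h3 : Real.cos (θ * t) ≤ Real.cos t + (1 - θ) * (Real.pi / 2) := by
        have h4 := Real.abs_cos_sub_cos_le (θ * t) t
        have h5 : |θ * t - t| ≤ (1 - θ) * (Real.pi / 2) := by
          have : θ * t - t = -((1 - θ) * t) := by ring
          rw [this, abs_neg, abs_mul, abs_of_nonneg (by linarith)]
          exact mul_le_mul_of_nonneg_left ht2 (by linarith)
        have := (abs_le.1 h4).2
        linarith
      linarith
    have h6 : 0 ≤ (1 - θ) * (Real.pi / 2) := mul_nonneg (by linarith) (by positivity)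
    nlinarith
  have i3 : cm θ w ≤ cm 1 w := by
    unfold cm
    rw [one_mul, one_mul, ← hs, ← ht]
    have h2 := cosh_mono_mul hθ0.le hθ s
    linarith
  have i4 : θ ^ 2 * E * cm 1 w ≤ cm θ w := by
    rw [cm_eq, cm_eq, one_mul, one_mul]
    have h1 := sinh_sq_cmp hθ0.le hθ (Real.pi * w.im / 2)
    have h2 := sin_sq_cmp hθ0.le hθ (x := Real.pi * w.re / 2) (by
      rw [← ht, abs_div, abs_two]
      linarith)
    have e2 : (1 - θ) * (2 * |Real.pi * w.im / 2|) = (1 - θ) * |s| := by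
      rw [← hs, abs_div, abs_two]
      ring
    rw [e2, ← hE] at h1
    have h3 : θ ^ 2 * E * Real.sin (Real.pi * w.re / 2) ^ 2 ≤ θ ^ 2 * Real.sin (Real.pi * w.re / 2) ^ 2 := by
      have : 0 ≤ θ ^ 2 * Real.sin (Real.pi * w.re / 2) ^ 2 := by positivity
      nlinarith
    nlinarith
  -- logarithms
  have l1 := Real.log_le_log (by positivity) i1
  rw [Real.log_mul hE0.ne' (by positivity)] at l1
  have l2 := Real.log_le_log (by positivity) i2
  have hx0 : 0 < 1 + (1 - θ) * (Real.pi / 2) := by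
    have : 0 ≤ (1 - θ) * (Real.pi / 2) := mul_nonneg (by linarith) (by positivity)
    linarith
  rw [Real.log_mul hx0.ne' (by positivity)] at l2
  have l3 := Real.log_le_log m1 i3
  have l4 := Real.log_le_log (by positivity) i4
  rw [Real.log_mul (by positivity) m2.ne', Real.log_mul (by positivity) hE0.ne', Real.log_pow] at l4
  have hlE : Real.log E = -((1 - θ) * |s|) := by rw [hE, Real.log_exp]
  rw [hlE] at l1 l4
  have l5 : Real.log (1 + (1 - θ) * (Real.pi / 2)) ≤ (1 - θ) * (Real.pi / 2) := by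
    have := Real.log_le_sub_one_of_pos hx0
    linarith
  have l6 : -Real.log θ ≤ 2 * b - 1 := by
    have h1 : θ = (2 * b)⁻¹ := by rw [hθd, one_div]
    rw [h1, Real.log_inv, neg_neg]
    exact Real.log_le_sub_one_of_pos hb0
  have l7 : 1 - θ ≤ 2 * b - 1 := by nlinarith
  have hpi4 := Real.pi_lt_four
  have hsa : |s| ≤ 4 * |w.im| := by
    rw [hs, abs_mul, abs_of_pos hpi]
    exact mul_le_mul_of_nonneg_right hpi4.le (abs_nonneg _)
  have l8 : (1 - θ) * |s| ≤ (2 * b - 1) * (4 * |w.im|) :=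
    mul_le_mul l7 hsa (abs_nonneg _) (by linarith)
  have l9 : (1 - θ) * (Real.pi / 2) ≤ (2 * b - 1) * 2 :=
    mul_le_mul l7 (by linarith) (by positivity) (by linarith)
  push_cast at l4
  have l0 : 0 ≤ (2 * b - 1) * (4 * |w.im|) := mul_nonneg (by linarith) (by positivity)
  rw [abs_le]
  constructor <;> nlinarith

lemma cosh_quart (x : ℝ) : x ^ 4 / 32 ≤ Real.cosh x - 1 := by
  have e1 : Real.cosh x = Real.cosh (2 * (x / 2)) := by congr 1; ring
  have e2 : Real.sinh (x / 2) = Real.sinh (2 * (x / 4)) := by congr 1; ring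
  rw [e1, Real.cosh_two_mul, Real.cosh_sq, e2, Real.sinh_two_mul]
  have h1 : (x / 4) ^ 2 ≤ Real.sinh (x / 4) ^ 2 := by
    rcases le_total 0 (x / 4) with h | h
    · exact pow_le_pow_left₀ h (Real.self_le_sinh_iff.2 h) 2
    · have h2 := Real.sinh_le_self_iff.2 h
      nlinarith
  have h2 := Real.cosh_sq (x / 4)
  have h3 : (2 * Real.sinh (x / 4) * Real.cosh (x / 4)) ^ 2 =
      4 * (Real.sinh (x / 4) ^ 2 * Real.cosh (x / 4) ^ 2) := by ring
  rw [h3, h2]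
  have h4 : (x / 4) ^ 2 * (x / 4) ^ 2 ≤ Real.sinh (x / 4) ^ 2 * (Real.sinh (x / 4) ^ 2 + 1) :=
    mul_le_mul h1 (by linarith) (by positivity) (by positivity)
  nlinarith

/-- the weight of a distant point -/
lemma wt_far {b : ℝ} (hb : 1 / 2 ≤ b) (hb1 : b ≤ 1) {w : ℂ} (hw : |w.re| ≤ 1 / 2) (h0 : w.im ≠ 0) :
    wt b w ≤ 7 / w.im ^ 4 := by
  have hw0 : w ≠ 0 := fun h => h0 (by rw [h]; rfl)
  obtain ⟨θ, hθd⟩ : ∃ θ : ℝ, θ = 1 / (2 * b) := ⟨_, rfl⟩
  have hb0 : 0 < 2 * b := by linarith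
  have hθ0 : 0 < θ := by rw [hθd]; positivity
  have hθ : θ ≤ 1 := by
    rw [hθd, div_le_one hb0]
    linarith
  have hθ2 : 1 / 2 ≤ θ := by
    rw [hθd]
    apply one_div_le_one_div_of_le hb0
    linarith
  rw [wt_eq hb hw hw0, ← hθd]
  have p1 := cp_ge hθ0.le hθ hw
  have m1 := cm_pos hθ0 hθ hw hw0
  have h1 : Real.log (cp θ w) - Real.log (cm θ w) ≤ cp θ w / cm θ w - 1 := by
    rw [← Real.log_div (by positivity) m1.ne']
    exact Real.log_le_sub_one_of_pos (by positivity)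
  have h2 : cp θ w / cm θ w - 1 = 2 * Real.cos (θ * (Real.pi * w.re)) / cm θ w := by
    rw [div_sub_one m1.ne']
    congr 1
    unfold cp cm
    ring
  have h3 := Real.cos_le_one (θ * (Real.pi * w.re))
  have h4 : (θ * (Real.pi * w.im)) ^ 4 / 32 ≤ cm θ w := by
    have := cosh_quart (θ * (Real.pi * w.im))
    unfold cm
    linarith
  have h5 : w.im ^ 4 / 7 ≤ (θ * (Real.pi * w.im)) ^ 4 / 32 := by
    have h6 : (3 / 2) ^ 4 ≤ (θ * Real.pi) ^ 4 := by
      apply pow_le_pow_left₀ (by norm_num)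
      have := Real.pi_gt_three
      nlinarith
    have e : (θ * (Real.pi * w.im)) ^ 4 = (θ * Real.pi) ^ 4 * w.im ^ 4 := by ring
    rw [e]
    have h7 : 0 < w.im ^ 4 := by positivity
    nlinarith
  have h8 : 0 < w.im ^ 4 / 7 := by positivity
  have h9 : 2 * Real.cos (θ * (Real.pi * w.re)) / cm θ w ≤ 2 / (w.im ^ 4 / 7) := by
    apply div_le_div₀ (by norm_num) (by linarith) h8 (h5.trans h4)
  have e : 2 / (w.im ^ 4 / 7) = 2 * (7 / w.im ^ 4) := by field_simp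
  rw [e] at h9
  linarith

end Q270SL
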