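import Pool.Agent.Q270.SL.C

/-! # Jensen's formula in a strip -/

set_option autoImplicit false

open Complex Filter Topology Set MeasureTheory Metric Real
open scoped ComplexConjugate
open Q270GD

namespace Q270SL

lemma mult_eq_mu (f : ℂ → ℂ) (z : ℂ) : H370.mult f z = mu f z := rfl

/-- the function on the disc -/
noncomputable def FF (b : ℝ) (f : ℂ → ℂ) (z : ℂ) : ℂ := f (psi b z)

lemma FF_ana {b : ℝ} {f : ℂ → ℂ} (hf : Differentiable ℂ f) {r : ℝ} (hr : r < 1) :
    AnalyticOnNhd ℂ (FF b f) (closedBall 0 r) := fun z hz => by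
  have hz1 : ‖z‖ < 1 := (mem_closedBall_zero_iff.1 hz).trans_lt hr
  exact (hf.analyticAt (psi b z)).comp (psi_analytic hz1)

lemma FF_mu {b : ℝ} (hb : 0 < b) (f : ℂ → ℂ) {z : ℂ} (hz : ‖z‖ < 1) :
    mu (FF b f) z = mu f (psi b z) := by
  have := analyticOrderAt_comp_of_deriv_ne_zero (f := f) (psi_analytic (b := b) hz) (psi_deriv_ne hb hz)
  unfold mu analyticOrderNatAt
  rw [← this]
  rfl

/-- the inverse of the conformal map -/
noncomputable def ta (b : ℝ) (w : ℂ) : ℂ := Complex.tan (((Real.pi / (4 * b) : ℝ) : ℂ) * w)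

lemma wt_ta (b : ℝ) (w : ℂ) : wt b w = -Real.log ‖ta b w‖ := rfl

/-- **Jensen's formula in a strip.** -/
theorem jensen_strip {K ℓ : ℝ} {f : ℂ → ℂ} (h : ND K ℓ f) (hK : 1 ≤ K) (hℓ : 0 ≤ ℓ) (h0 : f 0 ≠ 0) {b r Y : ℝ}
    (hb : 1 / 2 < b) (hr0 : 0 < r) (hr : r < 1) (hY : 2 * b / Real.pi * Real.log ((1 + r) / (1 - r)) ≤ Y) :
    circleAverage (fun z => Real.log ‖FF b f z‖) 0 r = Real.log ‖f 0‖ +
      ∑ w ∈ W f Y, (mu f w : ℝ) * max 0 (Real.log r + wt b w) := by
  classical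
  have hb0 : 0 < b := by linarith
  have hF0 : FF b f 0 = f 0 := by unfold FF; rw [psi_zero]
  have hFa := FF_ana (b := b) h.diff hr
  have h1 := AnalyticOnNhd.circleAverage_log_norm (c := 0) (R := r) (f := FF b f) hr0.ne'
    (by rw [abs_of_pos hr0]; exact hFa) (by rw [hF0]; exact h0)
  rw [abs_of_pos hr0, hF0] at h1
  rw [h1, add_comm]
  congr 1
  -- zeros
  have hzre : ∀ w ∈ W f Y, |w.re| < b := fun w hw => by
    have := h.zer w ((mem_W h hK hℓ).1 hw).1
    linarith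
  have hinj : ∀ x ∈ (W f Y).filter (fun w => ‖ta b w‖ ≤ r), ∀ y ∈ (W f Y).filter (fun w => ‖ta b w‖ ≤ r),
      ta b x = ta b y → x = y := by
    intro x hx y hy hxy
    have e1 := psi_tan hb0 (hzre x (Finset.mem_filter.1 hx).1)
    have e2 := psi_tan hb0 (hzre y (Finset.mem_filter.1 hy).1)
    change psi b (ta b x) = x at e1
    change psi b (ta b y) = y at e2
    rw [← e1, ← e2, hxy]
  have hK' : IsPreconnected (closedBall (0 : ℂ) r) := (convex_closedBall 0 r).isPreconnected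
  have hcr : (0 : ℂ) ∈ closedBall (0 : ℂ) r := mem_closedBall_self hr0.le
  rw [finsum_eq_sum_of_support_subset (s := ((W f Y).filter (fun w => ‖ta b w‖ ≤ r)).image (ta b))]
  · rw [Finset.sum_image hinj, Finset.sum_filter]
    refine Finset.sum_congr rfl fun w hw => ?_
    have hw' := (mem_W h hK hℓ).1 hw
    by_cases hc : ‖ta b w‖ ≤ r
    · rw [if_pos hc]
      have hw0 : w ≠ 0 := by
        rintro rfl
        exact h0 hw'.1
      have hp : 0 < ‖ta b w‖ := tan_pos hb.le (h.zer w hw'.1) hw0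
      rw [H370.Loc.divisor_eq hK' hFa hcr (by rw [hF0]; exact h0) (mem_closedBall_zero_iff.2 hc), mult_eq_mu,
        FF_mu hb0 f (hc.trans_lt hr)]
      have e1 := psi_tan hb0 (hzre w hw)
      change psi b (ta b w) = w at e1
      rw [e1]
      have e2 : Real.log (r * ‖0 - ta b w‖⁻¹) = Real.log r + wt b w := by
        rw [zero_sub, norm_neg, Real.log_mul hr0.ne' (by positivity), Real.log_inv, wt_ta]
      rw [e2, max_eq_right]
      · push_cast
        ring
      · rw [wt_ta]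
        have := Real.log_le_log hp hc
        linarith
    · rw [if_neg hc]
      push Not at hc
      have : Real.log r + wt b w ≤ 0 := by
        rw [wt_ta]
        have := Real.log_le_log hr0 hc.le
        linarith
      rw [max_eq_left this, mul_zero]
  · intro u hu
    rw [Function.mem_support] at hu
    have hd : MeromorphicOn.divisor (FF b f) (closedBall 0 r) u ≠ 0 := by
      intro h2
      rw [h2] at hu
      simp at hu
    have hub : u ∈ closedBall (0 : ℂ) r := by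
      by_contra hcon
      exact hd (Function.locallyFinsuppWithin.apply_eq_zero_of_notMem _ hcon)
    have hu1 : ‖u‖ ≤ r := mem_closedBall_zero_iff.1 hub
    have hFu : FF b f u = 0 := by
      rw [H370.Loc.divisor_eq hK' hFa hcr (by rw [hF0]; exact h0) hub] at hd
      rw [← H370.Loc.mult_pos hK' hFa hcr (by rw [hF0]; exact h0) hub]
      exact Nat.pos_of_ne_zero (by exact_mod_cast hd)
    rw [Finset.coe_image]
    have e1 := tan_psi hb0 (hu1.trans_lt hr)
    change ta b (psi b u) = u at e1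
    refine ⟨psi b u, ?_, e1⟩
    rw [Finset.coe_filter]
    refine ⟨(mem_W h hK hℓ).2 ⟨hFu, (psi_im_le hb0 hu1 hr).trans hY⟩, ?_⟩
    rw [e1]
    exact hu1

/-- the sum over the distant zeros -/
theorem tail {K ℓ : ℝ} {f : ℂ → ℂ} (h : ND K ℓ f) (hK : 1 ≤ K) (hℓ : 1 ≤ ℓ) {b Y : ℝ}
    (hb : 1 / 2 ≤ b) (hb1 : b ≤ 1) (hY : 1 ≤ Y) (S : Finset ℂ) (hS : ∀ w ∈ S, f w = 0 ∧ Y < |w.im|) :
    ∑ w ∈ S, (mu f w : ℝ) * wt b w ≤ 8000000 * K * ℓ / Y := by
  have h1 := qsum h hK hℓ hY S fun z hz => (hS z hz).1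
  have hY0 : 0 < Y := by linarith
  have h2 : ∀ w ∈ S, (mu f w : ℝ) * wt b w ≤ 28 / Y ^ 2 * ((mu f w : ℝ) * Q270LD.q Y w.im) := by
    intro w hw
    obtain ⟨hw0, hw1⟩ := hS w hw
    have him : w.im ≠ 0 := by
      intro h3
      rw [h3, abs_zero] at hw1
      linarith
    have h3 := wt_far hb hb1 (h.zer w hw0) him
    have h4 : 7 / w.im ^ 4 ≤ 28 / Y ^ 2 * Q270LD.q Y w.im := by
      unfold Q270LD.q
      have hsq : Y ^ 2 ≤ w.im ^ 2 := by
        rw [← sq_abs w.im]
        exact pow_le_pow_left₀ hY0.le hw1.le 2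
      have e : 28 / Y ^ 2 * (Y ^ 2 / (Y ^ 2 + w.im ^ 2) ^ 2) = 28 / (Y ^ 2 + w.im ^ 2) ^ 2 := by
        field_simp
      rw [e, div_le_div_iff₀ (by positivity) (by positivity)]
      have h5 : (Y ^ 2 + w.im ^ 2) ^ 2 ≤ (2 * w.im ^ 2) ^ 2 :=
        pow_le_pow_left₀ (by positivity) (by linarith) 2
      nlinarith
    calc (mu f w : ℝ) * wt b w ≤ mu f w * (28 / Y ^ 2 * Q270LD.q Y w.im) :=
          mul_le_mul_of_nonneg_left (h3.trans h4) (Nat.cast_nonneg _)
      _ = _ := by ring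
  have h3 := Finset.sum_le_sum h2
  rw [← Finset.mul_sum] at h3
  refine h3.trans ((mul_le_mul_of_nonneg_left h1 (by positivity)).trans ?_)
  have e1 : 28 / Y ^ 2 * (131000 * K * (ℓ / Y + Y)) = 3668000 * K * (ℓ / Y ^ 3 + 1 / Y) := by
    field_simp
    ring
  rw [e1]
  have h5 : ℓ / Y ^ 3 ≤ ℓ / Y := by
    apply div_le_div_of_nonneg_left (by linarith) hY0
    nlinarith [pow_le_pow_left₀ zero_le_one hY 2]
  have h6 : 1 / Y ≤ ℓ / Y := div_le_div_of_nonneg_right hℓ hY0.le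
  calc 3668000 * K * (ℓ / Y ^ 3 + 1 / Y) ≤ 3668000 * K * (ℓ / Y + ℓ / Y) :=
        mul_le_mul_of_nonneg_left (by linarith) (by positivity)
    _ = 7336000 * (K * ℓ / Y) := by ring
    _ ≤ 8000000 * (K * ℓ / Y) := mul_le_mul_of_nonneg_right (by norm_num) (by positivity)
    _ = _ := by ring

end Q270SL
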