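import Pool.Agent.Q270.SL.D

/-! # The strip law for normalised functions -/

set_option autoImplicit false

open Complex Filter Topology Set MeasureTheory Metric Real
open scoped ComplexConjugate
open Pool.Agent.W169.HF Q270GD

namespace Q270SL

lemma kern_real {t q x y x₁ y₁ : ℝ} (hq0 : 0 < q) (hq : q ≤ 1 / 8) (htq : 5 * t ^ 2 * q ≤ 1)
    (hy : 0 ≤ y) (hy₁ : 0 ≤ y₁) (h : x ^ 2 + y ^ 2 = (1 - q) ^ 2) (h₁ : x₁ ^ 2 + y₁ ^ 2 = (1 - 2 * q) ^ 2)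
    (hx₁ : x₁ = 2 * t * q) (hx : |x| ≤ t * q) (ht : 0 ≤ t) :
    (x - x₁) ^ 2 + (y - y₁) ^ 2 ≤ ((3 * t + 3) * q) ^ 2 := by
  have hxa := abs_le.1 hx
  have htq0 : 0 ≤ t * q := by positivity
  have hxx : x ^ 2 ≤ t ^ 2 * q * q := by
    have : x ^ 2 ≤ (t * q) ^ 2 := by
      rw [← sq_abs x]
      exact pow_le_pow_left₀ (abs_nonneg x) hx 2
    nlinarith
  have hu1 : y ≤ 1 - q := by nlinarith [sq_nonneg x]
  have hu2 : y₁ ≤ 1 - 2 * q := by nlinarith [sq_nonneg x₁]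
  have hl1 : (1 - q) - y ≤ 2 * x ^ 2 := by
    have e : ((1 - q) - y) * ((1 - q) + y) = x ^ 2 := by linarith
    have h2 : 1 / 2 ≤ (1 - q) + y := by linarith
    have h3 : 0 ≤ (1 - q) - y := by linarith
    nlinarith
  have hl2 : (1 - 2 * q) - y₁ ≤ 2 * x₁ ^ 2 := by
    have e : ((1 - 2 * q) - y₁) * ((1 - 2 * q) + y₁) = x₁ ^ 2 := by linarith
    have h2 : 1 / 2 ≤ (1 - 2 * q) + y₁ := by linarith
    have h3 : 0 ≤ (1 - 2 * q) - y₁ := by linarith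
    nlinarith
  have hx1q : x₁ ^ 2 = 4 * (t ^ 2 * q * q) := by rw [hx₁]; ring
  have hb : t ^ 2 * q * q ≤ q / 5 := by
    have : t ^ 2 * q ≤ 1 / 5 := by linarith
    nlinarith
  have h3 : |y - y₁| ≤ 3 * q := by
    rw [abs_le]
    constructor <;> linarith
  have h4 : |x - x₁| ≤ 3 * (t * q) := by
    rw [abs_le, hx₁]
    constructor <;> linarith
  have h5 : (x - x₁) ^ 2 ≤ (3 * (t * q)) ^ 2 := by
    rw [← sq_abs (x - x₁)]
    exact pow_le_pow_left₀ (abs_nonneg _) h4 2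
  have h6 : (y - y₁) ^ 2 ≤ (3 * q) ^ 2 := by
    rw [← sq_abs (y - y₁)]
    exact pow_le_pow_left₀ (abs_nonneg _) h3 2
  have h7 : 0 ≤ t * q * q := by positivity
  nlinarith

/-- the kernels at two points near the ends are large on the end arcs -/
lemma kern {t q : ℝ} (ht : 0 ≤ t) (hq0 : 0 < q) (hq : q ≤ 1 / 8) (htq : 5 * t ^ 2 * q ≤ 1) :
    ∃ w₁ w₂ : ℂ, w₁ ∈ ball (0 : ℂ) (1 - q) ∧ w₂ ∈ ball (0 : ℂ) (1 - q) ∧
      t * (1 - ‖w₁‖ ^ 2) ≤ 2 * w₁.re ∧ t * (1 - ‖w₂‖ ^ 2) ≤ 2 * w₂.re ∧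
      ∀ z ∈ sphere (0 : ℂ) (1 - q), |2 * z.re| < t * (1 - ‖z‖ ^ 2) →
        1 / ((3 * t + 3) ^ 2 * q) ≤ poissonKernel 0 w₁ z ∨ 1 / ((3 * t + 3) ^ 2 * q) ≤ poissonKernel 0 w₂ z := by
  have hb : t ^ 2 * q * q ≤ q / 5 := by
    have : t ^ 2 * q ≤ 1 / 5 := by linarith
    nlinarith
  have hpos : 0 ≤ (1 - 2 * q) ^ 2 - (2 * t * q) ^ 2 := by nlinarith
  obtain ⟨y₁, hy₁⟩ : ∃ y₁ : ℝ, y₁ = Real.sqrt ((1 - 2 * q) ^ 2 - (2 * t * q) ^ 2) := ⟨_, rfl⟩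
  have hy0 : 0 ≤ y₁ := by rw [hy₁]; exact Real.sqrt_nonneg _
  have hysq : y₁ ^ 2 = (1 - 2 * q) ^ 2 - (2 * t * q) ^ 2 := by rw [hy₁]; exact Real.sq_sqrt hpos
  have hn : ∀ s : ℝ, s ^ 2 = y₁ ^ 2 → ‖(⟨2 * t * q, s⟩ : ℂ)‖ ^ 2 = (1 - 2 * q) ^ 2 := fun s hs => by
    rw [← Complex.normSq_eq_norm_sq, Complex.normSq_apply]
    show 2 * t * q * (2 * t * q) + s * s = _
    nlinarith
  have hball : ∀ s : ℝ, s ^ 2 = y₁ ^ 2 → (⟨2 * t * q, s⟩ : ℂ) ∈ ball (0 : ℂ) (1 - q) := fun s hs => by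
    rw [mem_ball_zero_iff]
    have h1 := hn s hs
    have h2 : ‖(⟨2 * t * q, s⟩ : ℂ)‖ = 1 - 2 * q :=
      (pow_left_inj₀ (norm_nonneg _) (by linarith) two_ne_zero).1 h1
    rw [h2]
    linarith
  have hre : ∀ s : ℝ, s ^ 2 = y₁ ^ 2 → t * (1 - ‖(⟨2 * t * q, s⟩ : ℂ)‖ ^ 2) ≤ 2 * (⟨2 * t * q, s⟩ : ℂ).re := by
    intro s hs
    rw [hn s hs]
    show t * (1 - (1 - 2 * q) ^ 2) ≤ 2 * (2 * t * q)
    have : 0 ≤ t * q ^ 2 := by positivity
    nlinarith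
  refine ⟨⟨2 * t * q, y₁⟩, ⟨2 * t * q, -y₁⟩, hball _ rfl, hball _ (by ring), hre _ rfl, hre _ (by ring), ?_⟩
  intro z hz hbad
  rw [mem_sphere_zero_iff_norm] at hz
  have hzn : z.re ^ 2 + z.im ^ 2 = (1 - q) ^ 2 := by
    rw [← hz, ← Complex.normSq_eq_norm_sq, Complex.normSq_apply]
    ring
  have hx : |z.re| ≤ t * q := by
    rw [abs_mul, abs_two, hz] at hbad
    have : t * (1 - (1 - q) ^ 2) ≤ 2 * (t * q) := by
      have : 0 ≤ t * q ^ 2 := by positivity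
      nlinarith
    linarith
  have key : ∀ s : ℝ, s ^ 2 = y₁ ^ 2 → ‖z - ⟨2 * t * q, s⟩‖ ^ 2 ≤ ((3 * t + 3) * q) ^ 2 →
      1 / ((3 * t + 3) ^ 2 * q) ≤ poissonKernel 0 ⟨2 * t * q, s⟩ z := by
    intro s hs hle
    unfold poissonKernel
    simp only [sub_zero]
    rw [hn s hs, hz]
    have hne : 0 < ‖z - ⟨2 * t * q, s⟩‖ := by
      have h1 := norm_sub_norm_le z (⟨2 * t * q, s⟩ : ℂ)
      have h2 := mem_ball_zero_iff.1 (hball s hs)
      rw [hz] at h1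
      linarith
    rw [div_le_div_iff₀ (by positivity) (by positivity)]
    have h3 : q ≤ (1 - q) ^ 2 - (1 - 2 * q) ^ 2 := by nlinarith
    have h4 : 0 < (3 * t + 3) ^ 2 * q := by positivity
    calc 1 * ‖z - ⟨2 * t * q, s⟩‖ ^ 2 ≤ q * ((3 * t + 3) ^ 2 * q) := by linarith
      _ ≤ _ := mul_le_mul_of_nonneg_right h3 h4.le
  have hd : ∀ s : ℝ, ‖z - ⟨2 * t * q, s⟩‖ ^ 2 = (z.re - 2 * t * q) ^ 2 + (z.im - s) ^ 2 := fun s => by
    rw [← Complex.normSq_eq_norm_sq, Complex.normSq_apply, sub_re, sub_im]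
    ring
  rcases le_total 0 z.im with him | him
  · left
    apply key _ rfl
    rw [hd]
    exact kern_real hq0 hq htq him hy0 hzn (by rw [hysq]; ring) rfl hx ht
  · right
    apply key _ (by ring)
    rw [hd]
    have := kern_real (y := -z.im) (y₁ := y₁) hq0 hq htq (by linarith) hy0 (by rw [neg_sq]; exact hzn)
      (by rw [hysq]; ring) rfl hx ht
    calc _ = (z.re - 2 * t * q) ^ 2 + (-z.im - y₁) ^ 2 := by ring
      _ ≤ _ := this

/-- the number of low zeros -/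
lemma low_count {K ℓ : ℝ} {f : ℂ → ℂ} (h : ND K ℓ f) (hK : 1 ≤ K) (hℓ : 1 ≤ ℓ) {Y : ℝ} (hYℓ : Y ≤ ℓ) :
    ∑ w ∈ W f Y, (mu f w : ℝ) ≤ 86000 * K * (1 + Y ^ 2) * ℓ := by
  have h1 := zsum h hK hℓ (W f Y) fun z hz => by
    have := (mem_W h hK (by linarith)).1 hz
    exact ⟨this.1, this.2.trans hYℓ⟩
  have h2 : ∑ w ∈ W f Y, (mu f w : ℝ) ≤ (1 + Y ^ 2) * ∑ z ∈ W f Y, (mu f z : ℝ) * (1 / (1 + z.im ^ 2)) := by
    rw [Finset.mul_sum]
    refine Finset.sum_le_sum fun z hz => ?_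
    have h3 := ((mem_W h hK (by linarith)).1 hz).2
    have h4 : z.im ^ 2 ≤ Y ^ 2 := by
      rw [← sq_abs z.im]
      exact pow_le_pow_left₀ (abs_nonneg _) h3 2
    have h5 : 1 ≤ (1 + Y ^ 2) * (1 / (1 + z.im ^ 2)) := by
      rw [mul_one_div, one_le_div (by positivity)]
      linarith
    calc (mu f z : ℝ) = mu f z * 1 := (mul_one _).symm
      _ ≤ mu f z * ((1 + Y ^ 2) * (1 / (1 + z.im ^ 2))) := mul_le_mul_of_nonneg_left h5 (Nat.cast_nonneg _)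
      _ = _ := by ring
  refine h2.trans ((mul_le_mul_of_nonneg_left h1 (by positivity)).trans (le_of_eq (by ring)))

/-- **The strip law.** -/
theorem nd_strip {K ε : ℝ} (hK : 1 ≤ K) (hε : 0 < ε) : ∃ Y0 : ℝ, 1 ≤ Y0 ∧ ∀ Y : ℝ, Y0 ≤ Y → ∃ ℓ0 : ℝ, 1 ≤ ℓ0 ∧
    ∀ (ℓ : ℝ) (f : ℂ → ℂ), ℓ0 ≤ ℓ → ND K ℓ f → f 0 ≠ 0 →
      |Real.log ‖f 0‖ - ℓ / 2 + ∑ w ∈ W f Y, (mu f w : ℝ) * wt (1 / 2) w| ≤ ε * ℓ := by
  classical
  refine ⟨max 1 (32000000 * K / ε), le_max_left _ _, fun Y hY => ?_⟩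
  have hY1 : 1 ≤ Y := (le_max_left _ _).trans hY
  have hY0 : 0 < Y := by linarith
  have hYK : 8000000 * K ≤ ε / 4 * Y := by
    have h1 := (le_max_right 1 (32000000 * K / ε)).trans hY
    rw [div_le_iff₀ hε] at h1
    linarith
  obtain ⟨n0, hn0⟩ : ∃ n0 : ℝ, n0 = 86000 * K * (1 + Y ^ 2) := ⟨_, rfl⟩
  have hn00 : 0 < n0 := by rw [hn0]; positivity
  obtain ⟨β, hβ⟩ : ∃ β : ℝ, β = min (min (ε / 16) (1 / 2)) (ε / (32 * n0 * (1 + Y))) := ⟨_, rfl⟩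
  have hβ0 : 0 < β := by
    rw [hβ]
    refine lt_min (lt_min (by positivity) (by norm_num)) (by positivity)
  have hβε : β ≤ ε / 16 := by rw [hβ]; exact (min_le_left _ _).trans (min_le_left _ _)
  have hβ2 : β ≤ 1 / 2 := by rw [hβ]; exact (min_le_left _ _).trans (min_le_right _ _)
  have hβn : n0 * (4 * β * (1 + Y)) ≤ ε / 8 := by
    have h1 : β ≤ ε / (32 * n0 * (1 + Y)) := by rw [hβ]; exact min_le_right _ _
    rw [le_div_iff₀ (by positivity)] at h1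
    linarith
  obtain ⟨b, hb⟩ : ∃ b : ℝ, b = 1 / 2 + β := ⟨_, rfl⟩
  have hb2 : 1 / 2 < b := by rw [hb]; linarith
  have hb1 : b ≤ 1 := by rw [hb]; linarith
  have hb0 : 0 < b := by linarith
  obtain ⟨κ, hκ⟩ : ∃ κ : ℝ, κ = min (ε / 16) (1 / 4) := ⟨_, rfl⟩
  have hκ0 : 0 < κ := by rw [hκ]; exact lt_min (by positivity) (by norm_num)
  have hκε : κ ≤ ε / 16 := by rw [hκ]; exact min_le_left _ _
  have hκ4 : κ ≤ 1 / 4 := by rw [hκ]; exact min_le_right _ _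
  have hpi := Real.pi_pos
  -- the angle
  obtain ⟨a, ha⟩ : ∃ a : ℝ, a = Real.pi / 2 * ((1 + β) / (1 + 2 * β)) := ⟨_, rfl⟩
  have hfr : (1 + β) / (1 + 2 * β) < 1 := by
    rw [div_lt_one (by positivity)]
    linarith
  have ha0 : 0 < a := by rw [ha]; positivity
  have ha1 : a < Real.pi / 2 := by
    rw [ha]
    nlinarith
  obtain ⟨t, ht⟩ : ∃ t : ℝ, t = Real.tan a := ⟨_, rfl⟩
  have ht0 : 0 < t := by rw [ht]; exact Real.tan_pos_of_pos_of_lt_pi_div_two ha0 ha1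
  have hat : Real.arctan t = a := by rw [ht]; exact Real.arctan_tan (by linarith) ha1
  have hx1 : 2 * b / Real.pi * Real.arctan t = 1 / 2 + β / 2 := by
    rw [hat, ha, hb]
    field_simp
  -- the radius
  obtain ⟨q, hq⟩ : ∃ q : ℝ, q = min (min (1 / 8) (1 / (5 * (t ^ 2 + 1)))) (min (ε / (64 * (3 * t + 3) ^ 2))
    (ε / (16 * n0))) := ⟨_, rfl⟩
  have hq0 : 0 < q := by
    rw [hq]
    refine lt_min (lt_min (by norm_num) (by positivity)) (lt_min (by positivity) (by positivity))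
  have hq8 : q ≤ 1 / 8 := by rw [hq]; exact (min_le_left _ _).trans (min_le_left _ _)
  have hqt : 5 * t ^ 2 * q ≤ 1 := by
    have h1 : q ≤ 1 / (5 * (t ^ 2 + 1)) := by rw [hq]; exact (min_le_left _ _).trans (min_le_right _ _)
    rw [le_div_iff₀ (by positivity)] at h1
    nlinarith
  have hqA : (3 * t + 3) ^ 2 * q ≤ ε / 64 := by
    have h1 : q ≤ ε / (64 * (3 * t + 3) ^ 2) := by rw [hq]; exact (min_le_right _ _).trans (min_le_left _ _)
    rw [le_div_iff₀ (by positivity)] at h1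
    linarith
  have hqn : n0 * (2 * q) ≤ ε / 8 := by
    have h1 : q ≤ ε / (16 * n0) := by rw [hq]; exact (min_le_right _ _).trans (min_le_right _ _)
    rw [le_div_iff₀ (by positivity)] at h1
    linarith
  obtain ⟨r, hr⟩ : ∃ r : ℝ, r = 1 - q := ⟨_, rfl⟩
  have hr0 : 0 < r := by rw [hr]; linarith
  have hr1 : r < 1 := by rw [hr]; linarith
  obtain ⟨Y', hY'⟩ : ∃ Y' : ℝ, Y' = max Y (2 * b / Real.pi * Real.log ((1 + r) / (1 - r))) := ⟨_, rfl⟩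
  have hYY : Y ≤ Y' := by rw [hY']; exact le_max_left _ _
  have hYr : 2 * b / Real.pi * Real.log ((1 + r) / (1 - r)) ≤ Y' := by rw [hY']; exact le_max_right _ _
  obtain ⟨R1, hR1⟩ : ∃ R1 : ℝ, R1 = max 1 Y' := ⟨_, rfl⟩
  have hR11 : 1 ≤ R1 := by rw [hR1]; exact le_max_left _ _
  have hR1Y : Y' ≤ R1 := by rw [hR1]; exact le_max_right _ _
  obtain ⟨R, ℓp, hR, hP⟩ := prof_all K (3 / 2) (1 / 2) (β / 2) κ R1 hK (by norm_num) (by norm_num) (by norm_num)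
    (by norm_num) (by linarith) (by linarith) hκ0 hR11
  refine ⟨max (max 1 ℓp) Y, (le_max_left _ _).trans (le_max_left _ _), fun ℓ f hℓ h h0 => ?_⟩
  have hℓ1 : 1 ≤ ℓ := ((le_max_left _ _).trans (le_max_left _ _)).trans hℓ
  have hℓp : ℓp ≤ ℓ := ((le_max_right _ _).trans (le_max_left _ _)).trans hℓ
  have hℓY : Y ≤ ℓ := (le_max_right _ _).trans hℓ
  have hℓ0 : 0 < ℓ := by linarith
  have pf := hP ℓ 1 f hℓp h.ud (fun u hu _ hu0 => by
    have := (abs_le.1 (h.zer u hu0)).2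
    linarith)
  have hfe : ∀ u, ‖f (-conj u)‖ = ‖f u‖ := fun u => by
    obtain ⟨e, he, hfe⟩ := h.ud.fe
    rw [hfe u, norm_mul, he, one_mul, Complex.norm_conj]
  -- bounds on the disc
  have hps : ∀ z : ℂ, ‖z‖ ≤ r → |(psi b z).re| < b ∧ |(psi b z).im| ≤ R1 := fun z hz =>
    ⟨psi_re_lt hb0 (hz.trans_lt hr1), ((psi_im_le hb0 hz hr1).trans hYr).trans hR1Y⟩
  have hup : ∀ z ∈ sphere (0 : ℂ) r, Real.log ‖FF b f z‖ ≤ ℓ * (b + κ) := by
    intro z hz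
    rw [mem_sphere_zero_iff_norm] at hz
    obtain ⟨h1, h2⟩ := hps z hz.le
    have h3 := pf.upp (psi b z) (by linarith) h2
    rw [one_mul] at h3
    have hM : 0 ≤ ℓ * (b + κ) := by positivity
    rcases eq_or_ne (‖FF b f z‖) 0 with h4 | h4
    · rw [h4, Real.log_zero]
      exact hM
    · have h5 : 0 < ‖FF b f z‖ := lt_of_le_of_ne (norm_nonneg _) (Ne.symm h4)
      have h6 := Real.log_le_log h5 h3
      rw [Real.log_exp] at h6
      refine h6.trans ?_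
      have h7 : max |(psi b z).re| (1 / 2 + β / 2) ≤ b := max_le h1.le (by rw [hb]; linarith)
      have h8 := mul_le_mul_of_nonneg_left h7 hℓ0.le
      linarith
  have hlow : ∀ u : ℂ, 1 / 2 + β / 2 ≤ u.re → u.re ≤ R1 → |u.im| ≤ R1 →
      ℓ * (1 / 2 + β / 2 - κ) ≤ Real.log ‖f u‖ := by
    intro u hu1 hu2 hu3
    have h1 := pf.low u hu1 hu2 hu3
    rw [one_mul] at h1
    have h2 := Real.log_le_log (Real.exp_pos _) h1
    rw [Real.log_exp] at h2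
    refine le_trans ?_ h2
    have := mul_le_mul_of_nonneg_left hu1 hℓ0.le
    linarith
  have hlow2 : ∀ z : ℂ, ‖z‖ ≤ r → t * (1 - ‖z‖ ^ 2) ≤ 2 * z.re →
      ℓ * (1 / 2 + β / 2 - κ) ≤ Real.log ‖FF b f z‖ := by
    intro z hz hz2
    obtain ⟨h1, h2⟩ := hps z hz
    have h3 := psi_re_ge hb0 (hz.trans_lt hr1) hz2
    rw [hx1] at h3
    exact hlow _ h3 (by linarith [le_abs_self (psi b z).re]) h2
  have hone : ∀ z : ℂ, ‖z‖ ≤ r → t * (1 - ‖z‖ ^ 2) ≤ 2 * z.re → 1 ≤ ‖FF b f z‖ := by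
    intro z hz hz2
    have h1 := hlow2 z hz hz2
    have h2 : 0 < ℓ * (1 / 2 + β / 2 - κ) := mul_pos hℓ0 (by linarith)
    by_contra hcon
    push Not at hcon
    have := Real.log_nonpos (norm_nonneg _) hcon.le
    linarith
  have hlo : ∀ z ∈ sphere (0 : ℂ) r, ¬ (|2 * z.re| < t * (1 - ‖z‖ ^ 2)) →
      ℓ * (1 / 2 + β / 2 - κ) ≤ Real.log ‖FF b f z‖ := by
    intro z hz hz2
    rw [mem_sphere_zero_iff_norm] at hz
    push Not at hz2
    rcases le_total 0 (2 * z.re) with hs | hs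
    · rw [abs_of_nonneg hs] at hz2
      exact hlow2 z hz.le hz2
    · rw [abs_of_nonpos hs] at hz2
      obtain ⟨h1, h2⟩ := hps z hz.le
      have h3 := psi_re_le hb0 (hz.trans_lt hr1) hz2
      rw [hx1] at h3
      have h4 := hlow (-conj (psi b z)) (by simp; linarith) (by
        simp
        linarith [neg_abs_le (psi b z).re]) (by simpa using h2)
      rw [hfe] at h4
      exact h4
  obtain ⟨w₁, w₂, hw₁, hw₂, hw₁r, hw₂r, hker⟩ := kern ht0.le hq0 hq8 hqt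
  rw [← hr] at hw₁ hw₂ hker
  have hA0 : 0 < 1 / ((3 * t + 3) ^ 2 * q) := by positivity
  have hF0 : FF b f 0 = f 0 := by unfold FF; rw [psi_zero]
  have havg := avg_lower (R := r) (R' := (1 + r) / 2) hr0 (by linarith) (FF b f)
    (FF_ana h.diff (by linarith)) (by rw [hF0]; exact h0) hw₁ hw₂
    (hone w₁ (mem_ball_zero_iff.1 hw₁).le hw₁r) (hone w₂ (mem_ball_zero_iff.1 hw₂).le hw₂r)
    (M := ℓ * (b + κ)) (d := ℓ * (b - (1 / 2 + β / 2) + 2 * κ)) hA0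
    (by
      rw [hb]
      have : 0 ≤ 1 / 2 + β - (1 / 2 + β / 2) + 2 * κ := by linarith
      positivity) hup
    (fun z hz => by
      by_cases hc : |2 * z.re| < t * (1 - ‖z‖ ^ 2)
      · exact Or.inr (hker z hz hc)
      · left
        have := hlo z hz hc
        linarith)
  have hJ := jensen_strip h hK hℓ0.le h0 hb2 hr0 hr1 hYr
  have havgU : circleAverage (fun z => Real.log ‖FF b f z‖) 0 r ≤ ℓ * (b + κ) := by
    have hi := log_int hr0 (FF_ana (b := b) h.diff hr1)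
    have := circleAverage_mono hi (circleIntegrable_const (ℓ * (b + κ)) 0 r) (fun z hz => by
      rw [abs_of_pos hr0] at hz
      exact hup z hz)
    rwa [circleAverage_const] at this
  -- the zeros
  have hmem : ∀ {w : ℂ}, w ∈ W f Y → f w = 0 ∧ |w.im| ≤ Y := fun hw => (mem_W h hK hℓ0.le).1 hw
  have hne : ∀ {w : ℂ}, f w = 0 → w ≠ 0 := fun hw hw0 => h0 (by rw [hw0] at hw; exact hw)
  have hsub : W f Y ⊆ W f Y' := fun w hw => by
    have := hmem hw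
    exact (mem_W h hK hℓ0.le).2 ⟨this.1, this.2.trans hYY⟩
  have hN := low_count h hK hℓ1 hℓY
  rw [← hn0] at hN
  have hN0 : 0 ≤ ∑ w ∈ W f Y, (mu f w : ℝ) := Finset.sum_nonneg fun _ _ => Nat.cast_nonneg _
  have hcmp : ∀ w ∈ W f Y, |wt b w - wt (1 / 2) w| ≤ 4 * β * (1 + Y) := by
    intro w hw
    obtain ⟨h1, h2⟩ := hmem hw
    refine (wt_cmp hb2.le (h.zer w h1) (hne h1)).trans ?_
    have e : 2 * b - 1 = 2 * β := by rw [hb]; ring
    rw [e]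
    nlinarith
  have hlogr : -Real.log r ≤ 2 * q := by
    have h1 := Real.log_le_sub_one_of_pos (show 0 < r⁻¹ by positivity)
    rw [Real.log_inv] at h1
    have h2 : r⁻¹ - 1 ≤ 2 * q := by
      rw [sub_le_iff_le_add, inv_le_comm₀ hr0 (by positivity), inv_eq_one_div, div_le_iff₀ (by positivity), hr]
      nlinarith
    linarith
  have hlogr0 : Real.log r ≤ 0 := Real.log_nonpos hr0.le hr1.le
  -- upper bound
  have hU : Real.log ‖f 0‖ + ∑ w ∈ W f Y, (mu f w : ℝ) * wt (1 / 2) w ≤ ℓ * (b + κ) + ε / 4 * ℓ := by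
    have h1 : ∑ w ∈ W f Y, (mu f w : ℝ) * wt (1 / 2) w ≤ ∑ w ∈ W f Y, ((mu f w : ℝ) * max 0 (Real.log r + wt b w) +
        mu f w * (2 * q + 4 * β * (1 + Y))) := by
      refine Finset.sum_le_sum fun w hw => ?_
      have h2 := (abs_le.1 (hcmp w hw)).1
      have h3 := le_max_right 0 (Real.log r + wt b w)
      rw [← mul_add]
      apply mul_le_mul_of_nonneg_left _ (Nat.cast_nonneg _)
      linarith
    rw [Finset.sum_add_distrib, ← Finset.sum_mul] at h1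
    have h2 : ∑ w ∈ W f Y, (mu f w : ℝ) * max 0 (Real.log r + wt b w) ≤
        ∑ w ∈ W f Y', (mu f w : ℝ) * max 0 (Real.log r + wt b w) :=
      Finset.sum_le_sum_of_subset_of_nonneg hsub fun w _ _ => mul_nonneg (Nat.cast_nonneg _) (le_max_left _ _)
    have h3 : (∑ w ∈ W f Y, (mu f w : ℝ)) * (2 * q + 4 * β * (1 + Y)) ≤ n0 * ℓ * (2 * q + 4 * β * (1 + Y)) :=
      mul_le_mul_of_nonneg_right hN (by positivity)
    have h4 : n0 * ℓ * (2 * q + 4 * β * (1 + Y)) ≤ ε / 4 * ℓ := by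
      have : n0 * ℓ * (2 * q + 4 * β * (1 + Y)) = (n0 * (2 * q) + n0 * (4 * β * (1 + Y))) * ℓ := by ring
      rw [this]
      apply mul_le_mul_of_nonneg_right _ hℓ0.le
      linarith
    linarith
  -- lower bound
  have hL : ℓ * (b + κ) - ℓ * (b - (1 / 2 + β / 2) + 2 * κ) - 2 * (ℓ * (b + κ)) / (1 / ((3 * t + 3) ^ 2 * q)) -
      ε / 8 * ℓ - ε / 4 * ℓ ≤ Real.log ‖f 0‖ + ∑ w ∈ W f Y, (mu f w : ℝ) * wt (1 / 2) w := by
    have h1 : ∑ w ∈ W f Y', (mu f w : ℝ) * max 0 (Real.log r + wt b w) ≤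
        ∑ w ∈ W f Y', (mu f w : ℝ) * wt b w := by
      refine Finset.sum_le_sum fun w hw => ?_
      have hw' := (mem_W h hK hℓ0.le).1 hw
      have h2 := wt_nonneg hb2.le (h.zer w hw'.1) (hne hw'.1)
      apply mul_le_mul_of_nonneg_left _ (Nat.cast_nonneg _)
      exact max_le h2 (by linarith)
    have h1' := Finset.sum_sdiff hsub (f := fun w => (mu f w : ℝ) * wt b w)
    have h2 := tail h hK hℓ1 hb2.le hb1 hY1 (W f Y' \ W f Y) fun w hw => by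
      obtain ⟨hw1, hw2⟩ := Finset.mem_sdiff.1 hw
      have hw' := (mem_W h hK hℓ0.le).1 hw1
      refine ⟨hw'.1, ?_⟩
      by_contra hcon
      exact hw2 ((mem_W h hK hℓ0.le).2 ⟨hw'.1, not_lt.1 hcon⟩)
    have h3 : 8000000 * K * ℓ / Y ≤ ε / 4 * ℓ := by
      rw [div_le_iff₀ hY0]
      calc 8000000 * K * ℓ ≤ ε / 4 * Y * ℓ := mul_le_mul_of_nonneg_right hYK hℓ0.le
        _ = _ := by ring
    have h4 : ∑ w ∈ W f Y, (mu f w : ℝ) * wt b w ≤ ∑ w ∈ W f Y, ((mu f w : ℝ) * wt (1 / 2) w +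
        mu f w * (4 * β * (1 + Y))) := by
      refine Finset.sum_le_sum fun w hw => ?_
      have h5 := (abs_le.1 (hcmp w hw)).2
      rw [← mul_add]
      apply mul_le_mul_of_nonneg_left _ (Nat.cast_nonneg _)
      linarith
    rw [Finset.sum_add_distrib, ← Finset.sum_mul] at h4
    have h5 : (∑ w ∈ W f Y, (mu f w : ℝ)) * (4 * β * (1 + Y)) ≤ n0 * ℓ * (4 * β * (1 + Y)) :=
      mul_le_mul_of_nonneg_right hN (by positivity)
    have h6 : n0 * ℓ * (4 * β * (1 + Y)) ≤ ε / 8 * ℓ := by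
      have : n0 * ℓ * (4 * β * (1 + Y)) = (n0 * (4 * β * (1 + Y))) * ℓ := by ring
      rw [this]
      exact mul_le_mul_of_nonneg_right hβn hℓ0.le
    linarith
  have hA : 2 * (ℓ * (b + κ)) / (1 / ((3 * t + 3) ^ 2 * q)) ≤ ε / 16 * ℓ := by
    have e : 2 * (ℓ * (b + κ)) / (1 / ((3 * t + 3) ^ 2 * q)) = 2 * (b + κ) * ((3 * t + 3) ^ 2 * q) * ℓ := by
      field_simp
    rw [e]
    apply mul_le_mul_of_nonneg_right _ hℓ0.le
    calc 2 * (b + κ) * ((3 * t + 3) ^ 2 * q) ≤ 4 * (ε / 64) :=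
          mul_le_mul (by linarith) hqA (by positivity) (by norm_num)
      _ = _ := by ring
  have hbℓ : ℓ * b ≤ ℓ / 2 + ε / 16 * ℓ := by
    rw [hb]
    have := mul_le_mul_of_nonneg_left hβε hℓ0.le
    linarith
  have hκℓ : ℓ * κ ≤ ε / 16 * ℓ := by
    have := mul_le_mul_of_nonneg_left hκε hℓ0.le
    linarith
  have hβℓ : 0 ≤ ℓ * β := by positivity
  have hεℓ : 0 < ε * ℓ := by positivity
  rw [abs_le]
  constructor <;> nlinarith

end Q270SL
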