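import Pool.Agent.Q270.SL.E
import Pool.Agent.Q270.GD.C12

/-! # The strip law for L-functions -/

set_option autoImplicit false

open Complex Filter Topology Set MeasureTheory Metric
open scoped ComplexConjugate
open Pool.Agent.W169.HF H353.E H353.F Q270GD

namespace Q270SL

variable {m : ℕ} {N : ℝ} {μ : Fin m → ℂ}

/-- lower bound for the product of the linear factors -/
lemma le_fac0 (hN : 1 ≤ N) {ρ : ℝ} (hρ : 0 < ρ) (hρ1 : ρ ≤ 1) (hμ : ∀ j, (μ j).re ≤ 1 / 2 - ρ) (y : ℝ) :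
    cnd N μ y ≤ N * (∏ j, (‖1 / 2 + (y : ℂ) * I - μ j‖ / (2 * Real.pi))) * Real.exp (m * (25 / ρ)) := by
  have hN0 : 0 < N := by linarith
  have hpi := Real.pi_gt_three
  have hpi' : Real.pi < 3.15 := Real.pi_lt_d2
  have h1 : ∀ j, 1 + ‖(y : ℂ) * I - μ j‖ ≤ (‖1 / 2 + (y : ℂ) * I - μ j‖ / (2 * Real.pi)) *
      Real.exp (25 / ρ) := fun j => by
    have h2 : ‖(y : ℂ) * I - μ j‖ ≤ ‖1 / 2 + (y : ℂ) * I - μ j‖ + 1 / 2 := by
      have e : (y : ℂ) * I - μ j = (1 / 2 + (y : ℂ) * I - μ j) - 1 / 2 := by ring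
      rw [e]
      refine (norm_sub_le _ _).trans ?_
      have e2 : ‖(1 / 2 : ℂ)‖ = 1 / 2 := by simp
      linarith
    have h3 : ρ ≤ ‖1 / 2 + (y : ℂ) * I - μ j‖ := by
      refine le_trans ?_ (re_le_norm _)
      simp
      linarith [hμ j]
    obtain ⟨w, hw⟩ : ∃ w : ℝ, w = ‖1 / 2 + (y : ℂ) * I - μ j‖ := ⟨_, rfl⟩
    rw [← hw] at h2 h3 ⊢
    have hw0 : 0 < w := by linarith
    have h5 : 25 / ρ ≤ Real.exp (25 / ρ) := by
      linarith [Real.add_one_le_exp (25 / ρ)]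
    have h6 : 1 + ‖(y : ℂ) * I - μ j‖ ≤ w + 3 / 2 := by linarith
    have h7 : w + 3 / 2 ≤ w / ρ * (5 / 2) := by
      rw [div_mul_eq_mul_div, le_div_iff₀ hρ]
      nlinarith
    have h8 : w / ρ * (5 / 2) ≤ w / (2 * Real.pi) * (25 / ρ) := by
      rw [div_mul_eq_mul_div, div_mul_eq_mul_div, div_le_div_iff₀ hρ (by positivity)]
      have e9 : w * (25 / ρ) * ρ = w * 25 := by field_simp
      rw [e9]
      nlinarith
    calc _ ≤ _ := h6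
      _ ≤ _ := h7
      _ ≤ _ := h8
      _ ≤ _ := mul_le_mul_of_nonneg_left h5 (by positivity)
  have h7 : ∏ j, (1 + ‖(y : ℂ) * I - μ j‖) ≤ ∏ j, ((‖1 / 2 + (y : ℂ) * I - μ j‖ / (2 * Real.pi)) *
      Real.exp (25 / ρ)) :=
    Finset.prod_le_prod (fun j _ => by positivity) fun j _ => h1 j
  rw [Finset.prod_mul_distrib, Finset.prod_const, Finset.card_univ, Fintype.card_fin,
    ← Real.exp_nat_mul] at h7
  unfold cnd
  calc N * ∏ j, (1 + ‖(y : ℂ) * I - μ j‖) ≤ N * ((∏ j, (‖1 / 2 + (y : ℂ) * I - μ j‖ / (2 * Real.pi))) *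
      Real.exp (m * (25 / ρ))) := mul_le_mul_of_nonneg_left h7 hN0.le
    _ = _ := by ring

/-- upper bound for the gamma factor on the critical line -/
theorem gam_up0 (hm : 1 ≤ m) (hN : 1 ≤ N) {ρ : ℝ} (hρ : 0 < ρ) (hρ1 : ρ ≤ 1)
    (hμ : ∀ j, (μ j).re ≤ 1 / 2 - ρ) (y : ℝ) :
    gaf N μ (1 / 2 + (y : ℂ) * I) ≠ 0 ∧ ‖gaf N μ (1 / 2 + (y : ℂ) * I)‖ ≤
      (‖gaf N μ (3 / 2 + y * I)‖ * Real.exp (-(gaD N μ (3 / 2 + y * I)).re)) *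
      Real.exp (226 * m + 25 * m / ρ) := by
  have hN0 : 0 < N := by linarith
  have hm' : (1 : ℝ) ≤ m := by exact_mod_cast hm
  have hμ' : ∀ j, (μ j).re ≤ 1 / 2 := fun j => by linarith [hμ j]
  have gp := gaf_GP hm hN hμ'
  obtain ⟨ℓ, hℓ⟩ : ∃ ℓ : ℝ, ℓ = (gaD N μ (3 / 2 + y * I)).re := ⟨_, rfl⟩
  obtain ⟨G, hG⟩ : ∃ G : ℝ, G = ‖gaf N μ (3 / 2 + y * I)‖ * Real.exp (-ℓ) := ⟨_, rfl⟩
  rw [← hℓ, ← hG]
  have hs1 : 1 ≤ (3 / 2 + y * I : ℂ).re := by simp; norm_num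
  have hGpos : 0 < G := by
    rw [hG]
    have := norm_pos_iff.2 (gp.ne _ hs1)
    positivity
  obtain ⟨s, hs⟩ : ∃ s : ℂ, s = 1 / 2 + (y : ℂ) * I := ⟨_, rfl⟩
  have hre : ∀ j, 0 < (s - μ j).re := fun j => by
    rw [hs]
    simp
    linarith [hμ j]
  have hz : ∀ j, s - μ j ≠ 0 := fun j h => by
    have := hre j
    rw [h] at this
    simp at this
  have hle := le_fac0 hN hρ hρ1 hμ y
  rw [← hs] at hle ⊢
  have h0 : gaf N μ s ≠ 0 := by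
    unfold gaf
    refine mul_ne_zero ?_ (Finset.prod_ne_zero_iff.mpr fun j _ => Gammaℝ_ne_zero_of_re_pos (hre j))
    rw [cpow_def_of_ne_zero (by exact_mod_cast hN0.ne')]
    exact Complex.exp_ne_zero _
  refine ⟨h0, ?_⟩
  have h1 := gaf_add_two hN0 hz
  have h2 := (gam_loc gp y (u := 2) (by simp; norm_num)).1
  rw [← hℓ, ← hG, show (1 / 2 + (y : ℂ) * I + 2 : ℂ) = s + 2 by rw [hs], h1, norm_mul,
    norm_fac hN0] at h2
  obtain ⟨P, hP⟩ : ∃ P : ℝ, P = N * ∏ j, (‖s - μ j‖ / (2 * Real.pi)) := ⟨_, rfl⟩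
  rw [← hP] at h2 hle
  rw [cnd_exp hN] at hle
  have hup := gaD_re_le hN hμ' y
  change _ ≤ 1 / 2 * Real.log (cnd N μ y) + 5 * m at hup
  rw [← hℓ] at hup
  have hPpos : 0 < P := by
    by_contra hcon
    push Not at hcon
    have := mul_nonpos_of_nonpos_of_nonneg hcon (Real.exp_pos (m * (25 / ρ))).le
    linarith [Real.exp_pos (Real.log (cnd N μ y))]
  have e25 : (m : ℝ) * (25 / ρ) = 25 * m / ρ := by ring
  rw [e25] at hle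
  have h9 : P⁻¹ ≤ Real.exp (-Real.log (cnd N μ y)) * Real.exp (25 * m / ρ) := by
    rw [inv_le_iff_one_le_mul₀ hPpos]
    calc (1 : ℝ) = Real.exp (-Real.log (cnd N μ y)) * Real.exp (Real.log (cnd N μ y)) := by
          rw [← Real.exp_add]; simp
      _ ≤ Real.exp (-Real.log (cnd N μ y)) * (P * Real.exp (25 * m / ρ)) := by gcongr
      _ = _ := by ring
  have en : ‖(2 : ℂ)‖ = 2 := by simp
  have er : (2 : ℂ).re = 2 := by simp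
  rw [en, er] at h2
  calc ‖gaf N μ s‖ = ‖gaf N μ s‖ * P * P⁻¹ := by field_simp
    _ ≤ G * Real.exp (ℓ * 2 + 4 * (6 * m) * (1 + 2 ^ 2)) *
        (Real.exp (-Real.log (cnd N μ y)) * Real.exp (25 * m / ρ)) :=
          mul_le_mul h2 h9 (by positivity) (by positivity)
    _ = G * Real.exp (ℓ * 2 + 4 * (6 * m) * (1 + 2 ^ 2) + -Real.log (cnd N μ y) +
        25 * m / ρ) := by
          rw [Real.exp_add (_ + _), Real.exp_add (ℓ * 2 + 4 * (6 * m) * (1 + 2 ^ 2))]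
          ring
    _ ≤ _ := by
          apply mul_le_mul_of_nonneg_left _ hGpos.le
          apply Real.exp_le_exp.2
          linarith

/-- the bound of Luo, Rudnick and Sarnak for the archimedean parameters -/
def LRS (μ : Fin m → ℂ) : Prop := ∀ j, (μ j).re ≤ 1 / 2 - 1 / ((m : ℝ) ^ 2 + 1)

/-- the constant -/
noncomputable def cm' (m : ℕ) : ℝ := 231 * m + 25 * m * ((m : ℝ) ^ 2 + 1)

lemma cm'_nonneg (m : ℕ) : 0 ≤ cm' m := by unfold cm'; positivity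

/-- comparison of the L-function and the normalised function -/
lemma LL_cmp (hm : 1 ≤ m) (hN : 1 ≤ N) (hμ : LRS μ) (Λ : ℂ → ℂ) (y : ℝ) (h0 : Λ (1 / 2 + (y : ℂ) * I) ≠ 0) :
    0 < ‖LL μ Λ (1 / 2 + (y : ℂ) * I)‖ ∧
    |Real.log ‖LL μ Λ (1 / 2 + (y : ℂ) * I)‖ - Real.log ‖fn N μ Λ y 0‖| ≤ cm' m := by
  have hm' : (1 : ℝ) ≤ m := by exact_mod_cast hm
  obtain ⟨ρ, hρd⟩ : ∃ ρ : ℝ, ρ = 1 / ((m : ℝ) ^ 2 + 1) := ⟨_, rfl⟩
  have hρ : 0 < ρ := by rw [hρd]; positivity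
  have hρ1 : ρ ≤ 1 := by
    rw [hρd, div_le_one (by positivity)]
    nlinarith
  have hμ2 : ∀ j, (μ j).re ≤ 1 / 2 - ρ := fun j => by rw [hρd]; exact hμ j
  have hμ' : ∀ j, (μ j).re ≤ 1 / 2 := fun j => by linarith [hμ2 j]
  have hN0 : 0 < N := by linarith
  obtain ⟨g1, g2⟩ := gam_up0 hm hN hρ hρ1 hμ2 y
  have g3 := gam_inv hm hN hμ' y (u := 0) (by simp)
  rw [add_zero, zero_re, mul_zero, neg_zero, zero_add, norm_zero] at g3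
  obtain ⟨G, hG⟩ : ∃ G : ℝ, G = ‖gaf N μ (3 / 2 + y * I)‖ * Real.exp (-(gaD N μ (3 / 2 + y * I)).re) := ⟨_, rfl⟩
  have hG0 : 0 < G := by rw [hG]; exact gpos hm hN hμ' y
  rw [← hG] at g2 g3
  have hX : XX N Λ (1 / 2 + (y : ℂ) * I) ≠ 0 := fun h => h0 ((XX_zero hN0).1 h)
  have hXp := norm_pos_iff.2 hX
  have hgp := norm_pos_iff.2 g1
  have e1 : ‖LL μ Λ (1 / 2 + (y : ℂ) * I)‖ = ‖XX N Λ (1 / 2 + (y : ℂ) * I)‖ * ‖gaf N μ (1 / 2 + (y : ℂ) * I)‖⁻¹ := by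
    rw [LL_eq hN0, norm_mul, norm_inv]
  have e2 : ‖fn N μ Λ y 0‖ = G⁻¹ * ‖XX N Λ (1 / 2 + (y : ℂ) * I)‖ := by
    unfold fn
    rw [← hG, norm_mul, Complex.norm_real, Real.norm_of_nonneg (by positivity), add_zero]
  refine ⟨by rw [e1]; positivity, ?_⟩
  rw [e1, e2, Real.log_mul hXp.ne' (by positivity), Real.log_mul (by positivity) hXp.ne', Real.log_inv, Real.log_inv]
  have l1 := Real.log_le_log hgp g2
  rw [Real.log_mul hG0.ne' (Real.exp_pos _).ne', Real.log_exp] at l1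
  rw [norm_inv] at g3
  have l2 := Real.log_le_log (by positivity) g3
  rw [Real.log_mul (by positivity) (Real.exp_pos _).ne', Real.log_exp, Real.log_inv, Real.log_inv] at l2
  have e3 : 25 * (m : ℝ) / ρ = 25 * m * ((m : ℝ) ^ 2 + 1) := by rw [hρd]; field_simp
  rw [e3] at l1
  have : 0 ≤ 25 * (m : ℝ) * ((m : ℝ) ^ 2 + 1) := by positivity
  unfold cm'
  rw [abs_le]
  constructor <;> linarith

/-- the zeros of height at most `W` from `T` -/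
def ZT (Λ : ℂ → ℂ) (T W : ℝ) : Set ℂ := {s | Λ s = 0 ∧ |s.im - T| ≤ W}

/-- the weighted sum over the zeros -/
noncomputable def SW (Λ : ℂ → ℂ) (T W : ℝ) : ℝ :=
  ∑ᶠ s ∈ ZT Λ T W, (analyticOrderNatAt Λ s : ℝ) * wt (1 / 2) (s - (1 / 2 + (T : ℂ) * I))

/-- the data, with the bound for the archimedean parameters -/
def Dr (N : ℝ) (μ : Fin m → ℂ) (Λ : ℂ → ℂ) : Prop := Dt N μ Λ ∧ LRS μ

lemma Dr.nd_ (hm : 1 ≤ m) {Λ : ℂ → ℂ} (hD : Dr N μ Λ) {T : ℝ} (hT : 14 * m ≤ Real.log (cnd N μ T)) :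
    ∃ K : ℝ, 1 ≤ K ∧ ND K (el N μ T) (fn N μ Λ T) ∧ 0 ≤ el N μ T := by
  obtain ⟨K, hK, HN⟩ := nd_of m hm
  obtain ⟨⟨α, e, d, hnz⟩, -⟩ := hD
  obtain ⟨hb1, hb2⟩ := el_bd d.one_le d.re_le T
  exact ⟨K, hK, HN N μ α e Λ d hnz T, by linarith⟩

lemma ZT_eq (hm : 1 ≤ m) {Λ : ℂ → ℂ} (hD : Dr N μ Λ) {T : ℝ} (hT : 14 * m ≤ Real.log (cnd N μ T)) (Y : ℝ) :
    ZT Λ T Y = (fun u => 1 / 2 + (T : ℂ) * I + u) '' (W (fn N μ Λ T) Y : Set ℂ) := by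
  obtain ⟨K, hK, nd, hel⟩ := Dr.nd_ hm hD hT
  obtain ⟨⟨α, e, d, hnz⟩, -⟩ := hD
  ext s
  simp only [ZT, mem_ofPred_eq, Set.mem_image, Finset.mem_coe]
  constructor
  · rintro ⟨h1, h2⟩
    refine ⟨s - (1 / 2 + (T : ℂ) * I), (mem_W nd hK hel).2 ⟨?_, ?_⟩, by ring⟩
    · rw [fn_zero hm d.one_le d.re_le, add_sub_cancel]
      exact h1
    · have e2 : (s - (1 / 2 + (T : ℂ) * I)).im = s.im - T := by simp
      rw [e2]
      exact h2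
  · rintro ⟨u, hu, rfl⟩
    obtain ⟨h1, h2⟩ := (mem_W nd hK hel).1 hu
    refine ⟨(fn_zero hm d.one_le d.re_le).1 h1, ?_⟩
    have e2 : (1 / 2 + (T : ℂ) * I + u).im - T = u.im := by simp
    rw [e2]
    exact h2

lemma ZT_fin (hm : 1 ≤ m) {Λ : ℂ → ℂ} (hD : Dr N μ Λ) {T : ℝ} (hT : 14 * m ≤ Real.log (cnd N μ T)) (Y : ℝ) :
    (ZT Λ T Y).Finite := by
  rw [ZT_eq hm hD hT]
  exact (Finset.finite_toSet _).image _

lemma SW_eq (hm : 1 ≤ m) {Λ : ℂ → ℂ} (hD : Dr N μ Λ) {T : ℝ} (hT : 14 * m ≤ Real.log (cnd N μ T)) (Y : ℝ) :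
    SW Λ T Y = ∑ u ∈ W (fn N μ Λ T) Y, (mu (fn N μ Λ T) u : ℝ) * wt (1 / 2) u := by
  unfold SW
  rw [ZT_eq hm hD hT, finsum_mem_image (fun x _ y _ hxy => by simpa using hxy), finsum_mem_coe_finset]
  obtain ⟨⟨α, e, d, hnz⟩, -⟩ := hD
  refine Finset.sum_congr rfl fun u _ => ?_
  rw [fn_mu hm d.one_le d.re_le d.entire, add_sub_cancel_left]

/-- **The strip law for L-functions.** -/
theorem strip_law (m : ℕ) (hm : 1 ≤ m) {ε : ℝ} (hε : 0 < ε) : ∃ Y0 : ℝ, 1 ≤ Y0 ∧ ∀ Y : ℝ, Y0 ≤ Y → ∃ C0 : ℝ,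
    14 * m ≤ C0 ∧ ∀ (N : ℝ) (μ : Fin m → ℂ) (Λ : ℂ → ℂ), Dr N μ Λ → ∀ T : ℝ, C0 ≤ Real.log (cnd N μ T) →
      Λ (1 / 2 + (T : ℂ) * I) ≠ 0 →
      |Real.log ‖LL μ Λ (1 / 2 + (T : ℂ) * I)‖ - 1 / 4 * Real.log (cnd N μ T) + SW Λ T Y| ≤
        ε * Real.log (cnd N μ T) := by
  have hm' : (1 : ℝ) ≤ m := by exact_mod_cast hm
  obtain ⟨K, hK, HN⟩ := nd_of m hm
  obtain ⟨Y0, hY0, HY⟩ := nd_strip hK hε
  refine ⟨Y0, hY0, fun Y hY => ?_⟩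
  obtain ⟨ℓ0, hℓ0, H⟩ := HY Y hY
  have hc := cm'_nonneg m
  refine ⟨2 * ℓ0 + 14 * m + 2 * (cm' m + 4 * m + 5 * m * ε) / ε, by
    have : 0 ≤ 2 * (cm' m + 4 * m + 5 * m * ε) / ε := by positivity
    linarith, fun N μ Λ hD T hT hΛ => ?_⟩
  have hq : 0 ≤ 2 * (cm' m + 4 * m + 5 * m * ε) / ε := by positivity
  have hT14 : 14 * m ≤ Real.log (cnd N μ T) := by linarith
  rw [SW_eq hm hD hT14]
  obtain ⟨⟨α, e, d, hnz⟩, hl⟩ := hD
  have nd := HN N μ α e Λ d hnz T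
  obtain ⟨hb1, hb2⟩ := el_bd d.one_le d.re_le T
  obtain ⟨-, hcmp⟩ := LL_cmp hm d.one_le hl Λ T hΛ
  have hf0 : fn N μ Λ T 0 ≠ 0 := by
    intro h
    rw [fn_zero hm d.one_le d.re_le, add_zero] at h
    exact hΛ h
  have h1 := H _ _ (by linarith : ℓ0 ≤ el N μ T) nd hf0
  obtain ⟨L, hL⟩ : ∃ L : ℝ, L = Real.log (cnd N μ T) := ⟨_, rfl⟩
  rw [← hL] at hT hb1 hb2 ⊢
  have h2 : 2 * (cm' m + 4 * m + 5 * m * ε) ≤ ε * L := by
    have : 2 * (cm' m + 4 * m + 5 * m * ε) / ε ≤ L := by linarith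
    rw [div_le_iff₀ hε] at this
    linarith
  have h3 : ε * el N μ T ≤ ε * (L / 2 + 5 * m) := by
    apply mul_le_mul_of_nonneg_left _ hε.le
    linarith
  obtain ⟨c1, c2⟩ := abs_le.1 hcmp
  obtain ⟨d1, d2⟩ := abs_le.1 h1
  rw [abs_le]
  constructor <;> linarith

end Q270SL
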