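import Pool.Agent.Q270.SL.F

/-! # Subconvexity and the zeros away from the edges of the strip -/

set_option autoImplicit false

open Complex Filter Topology Set MeasureTheory Metric
open scoped ComplexConjugate
open Pool.Agent.W169.HF H353.E H353.F Q270GD

namespace Q270SL

/-- the weight of a point away from the edges -/
lemma wt_ge {η R : ℝ} (hη : 0 ≤ η) {w : ℂ} (hw : |w.re| ≤ 1 / 2 - η) (hR : |w.im| ≤ R) (h0 : w ≠ 0) :
    η / Real.cosh (Real.pi * R) ≤ wt (1 / 2) w := by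
  have hpi := Real.pi_pos
  have hw' : |w.re| ≤ 1 / 2 := by linarith
  rw [wt_eq le_rfl hw' h0]
  have e1 : (1 : ℝ) / (2 * (1 / 2)) = 1 := by norm_num
  rw [e1]
  have p := cp_ge (θ := 1) zero_le_one le_rfl hw'
  have q := cm_pos one_pos le_rfl hw' h0
  have h1 : 1 - cm 1 w / cp 1 w ≤ Real.log (cp 1 w) - Real.log (cm 1 w) := by
    rw [← Real.log_div (by positivity) q.ne']
    have := Real.one_sub_inv_le_log_of_pos (show 0 < cp 1 w / cm 1 w by positivity)
    rwa [inv_div] at this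
  have hc : 2 * η ≤ Real.cos (1 * (Real.pi * w.re)) := by
    rw [one_mul, ← Real.cos_abs, abs_mul, abs_of_pos hpi]
    have h2 := Real.one_sub_mul_le_cos (x := Real.pi * |w.re|) (by positivity) (by nlinarith)
    have h3 : 2 / Real.pi * (Real.pi * |w.re|) = 2 * |w.re| := by field_simp
    rw [h3] at h2
    linarith
  have hC : Real.cosh (1 * (Real.pi * w.im)) ≤ Real.cosh (Real.pi * R) := by
    rw [one_mul, Real.cosh_le_cosh, abs_mul, abs_mul, abs_of_pos hpi]
    exact mul_le_mul_of_nonneg_left (hR.trans (le_abs_self R)) hpi.le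
  have hC1 := Real.one_le_cosh (1 * (Real.pi * w.im))
  have h2 : 1 - cm 1 w / cp 1 w = 2 * Real.cos (1 * (Real.pi * w.re)) / cp 1 w := by
    rw [one_sub_div (by positivity)]
    congr 1
    unfold cp cm
    ring
  have h3 : cp 1 w ≤ 2 * Real.cosh (Real.pi * R) := by
    unfold cp
    have := Real.cos_le_one (1 * (Real.pi * w.re))
    linarith
  have h4 : 2 * (2 * η) / (2 * Real.cosh (Real.pi * R)) ≤ 2 * Real.cos (1 * (Real.pi * w.re)) / cp 1 w :=
    div_le_div₀ (by linarith) (by linarith) (by positivity) h3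
  have h5 : 2 * (2 * η) / (2 * Real.cosh (Real.pi * R)) = 2 * (η / Real.cosh (Real.pi * R)) := by
    field_simp
  linarith

/-- the weight of a point near the edges -/
lemma wt_edge {η : ℝ} (hη : η ≤ 1 / 8) {w : ℂ} (hw : |w.re| ≤ 1 / 2) (hw2 : 1 / 2 - η ≤ |w.re|) :
    wt (1 / 2) w ≤ 8 * η := by
  have hpi := Real.pi_pos
  have hpi4 := Real.pi_lt_four
  have h0 : w ≠ 0 := by
    rintro rfl
    simp at hw2
    linarith
  rw [wt_eq le_rfl hw h0]
  have e1 : (1 : ℝ) / (2 * (1 / 2)) = 1 := by norm_num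
  rw [e1]
  have p := cp_ge (θ := 1) zero_le_one le_rfl hw
  have q := cm_pos one_pos le_rfl hw h0
  have h1 : Real.log (cp 1 w) - Real.log (cm 1 w) ≤ cp 1 w / cm 1 w - 1 := by
    rw [← Real.log_div (by positivity) q.ne']
    exact Real.log_le_sub_one_of_pos (by positivity)
  have h2 : cp 1 w / cm 1 w - 1 = 2 * Real.cos (1 * (Real.pi * w.re)) / cm 1 w := by
    rw [div_sub_one q.ne']
    congr 1
    unfold cp cm
    ring
  have hη0 : 0 ≤ η := by linarith
  have hc : Real.cos (1 * (Real.pi * w.re)) ≤ 4 * η := by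
    rw [one_mul, ← Real.cos_abs, abs_mul, abs_of_pos hpi, ← Real.sin_pi_div_two_sub]
    refine (Real.sin_le (by nlinarith)).trans ?_
    nlinarith
  have h3 : 1 - 4 * η ≤ cm 1 w := by
    unfold cm
    have := Real.one_le_cosh (1 * (Real.pi * w.im))
    linarith
  have h4 : 2 * Real.cos (1 * (Real.pi * w.re)) / cm 1 w ≤ 2 * (4 * η) / (1 - 4 * η) :=
    div_le_div₀ (by linarith) (by linarith) (by linarith) h3
  have h5 : 2 * (4 * η) / (1 - 4 * η) ≤ 16 * η := by
    rw [div_le_iff₀ (by linarith)]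
    nlinarith
  linarith

/-- the weight in terms of the difference of the heights -/
lemma wt_log {w : ℂ} (hw : |w.re| ≤ 1 / 2) (h0 : w.im ≠ 0) :
    wt (1 / 2) w ≤ -Real.log w.im + 2 * |w.im| := by
  have hpi := Real.pi_gt_three
  have hpi4 := Real.pi_lt_four
  have hw0 : w ≠ 0 := fun h => h0 (by rw [h]; rfl)
  rw [wt_eq le_rfl hw hw0]
  have e1 : (1 : ℝ) / (2 * (1 / 2)) = 1 := by norm_num
  rw [e1]
  have p := cp_ge (θ := 1) zero_le_one le_rfl hw
  have ha : 0 < |w.im| := abs_pos.2 h0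
  have h1 : 2 * |w.im| ^ 2 ≤ cm 1 w := by
    rw [cm_eq, one_mul, one_mul, sq_abs]
    have h2 : (Real.pi * w.im / 2) ^ 2 ≤ Real.sinh (Real.pi * w.im / 2) ^ 2 := by
      rcases le_total 0 (Real.pi * w.im / 2) with h | h
      · exact pow_le_pow_left₀ h (Real.self_le_sinh_iff.2 h) 2
      · have h2 := Real.sinh_le_self_iff.2 h
        nlinarith
    have h3 : w.im ^ 2 ≤ (Real.pi * w.im / 2) ^ 2 := by
      have : (Real.pi * w.im / 2) ^ 2 = (Real.pi / 2) ^ 2 * w.im ^ 2 := by ring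
      rw [this]
      have h4 : 1 ≤ (Real.pi / 2) ^ 2 := by nlinarith
      nlinarith [sq_nonneg w.im]
    have := sq_nonneg (Real.sin (Real.pi * w.re / 2))
    linarith
  have h2 : cp 1 w ≤ 2 * Real.exp (4 * |w.im|) := by
    unfold cp
    rw [one_mul, one_mul]
    have h3 := Real.cos_le_one (Real.pi * w.re)
    have h4 : Real.cosh (Real.pi * w.im) ≤ Real.exp (4 * |w.im|) := by
      rw [← Real.cosh_abs, abs_mul, abs_of_pos (by linarith : 0 < Real.pi), Real.cosh_eq]
      have h5 : Real.exp (-(Real.pi * |w.im|)) ≤ Real.exp (Real.pi * |w.im|) := by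
        apply Real.exp_le_exp.2
        have : 0 ≤ Real.pi * |w.im| := by positivity
        linarith
      have h6 : Real.exp (Real.pi * |w.im|) ≤ Real.exp (4 * |w.im|) := by
        apply Real.exp_le_exp.2
        exact mul_le_mul_of_nonneg_right hpi4.le ha.le
      linarith
    have h5 := Real.one_le_exp (show 0 ≤ 4 * |w.im| by positivity)
    linarith
  have l1 := Real.log_le_log (by positivity) h1
  have l2 := Real.log_le_log (by positivity) h2
  rw [Real.log_mul (by norm_num) (by positivity), Real.log_pow, Real.log_abs] at l1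
  rw [Real.log_mul (by norm_num) (Real.exp_pos _).ne', Real.log_exp] at l2
  push_cast at l1
  linarith

/-- the integral of the logarithm over an interval of length two -/
lemma log_int_ge (a : ℝ) : -4 ≤ ∫ x in (a - 1)..(a + 1), Real.log x := by
  rw [integral_log]
  have key : ∀ t : ℝ, 0 ≤ t → -1 ≤ t * Real.log t := by
    intro t ht
    rcases ht.eq_or_lt with h | h
    · rw [← h]; simp
    · have h1 := Real.one_sub_inv_le_log_of_pos h
      have h2 := mul_le_mul_of_nonneg_left h1 h.le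
      have h3 : t * (1 - t⁻¹) = t - 1 := by field_simp
      rw [h3] at h2
      linarith
  have key2 : ∀ t : ℝ, 0 < t → 0 ≤ (t + 2) * Real.log (t + 2) - t * Real.log t := by
    intro t ht
    have h1 : 0 ≤ Real.log (t + 2) := Real.log_nonneg (by linarith)
    have h2 := Real.log_le_log ht (show t ≤ t + 2 by linarith)
    nlinarith
  rcases lt_or_ge 1 a with h | h
  · have := key2 (a - 1) (by linarith)
    rw [show a - 1 + 2 = a + 1 by ring] at this
    linarith
  · rcases lt_or_ge a (-1) with h' | h'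
    · have := key2 (-(a + 1)) (by linarith)
      rw [show -(a + 1) + 2 = -(a - 1) by ring, Real.log_neg_eq_log, Real.log_neg_eq_log] at this
      linarith
    · have h1 := key (a + 1) (by linarith)
      have h2 := key (-(a - 1)) (by linarith)
      rw [Real.log_neg_eq_log] at h2
      linarith

variable {m : ℕ}

/-- the zeros away from the edges of the strip -/
def IZ (Λ : ℂ → ℂ) (η T R : ℝ) : Set ℂ := {s | Λ s = 0 ∧ η ≤ s.re ∧ s.re ≤ 1 - η ∧ |s.im - T| ≤ R}

/-- their number, counted with multiplicity -/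
noncomputable def ni (Λ : ℂ → ℂ) (η T R : ℝ) : ℕ := ∑ᶠ s ∈ IZ Λ η T R, analyticOrderNatAt Λ s

lemma IZ_sub (Λ : ℂ → ℂ) (η T R : ℝ) : IZ Λ η T R ⊆ ZT Λ T R := fun _ hs => ⟨hs.1, hs.2.2.2⟩

/-- **Zeros away from the edges make the L-function small.** -/
theorem crit_a (m : ℕ) (hm : 1 ≤ m) {η R ε : ℝ} (hη : 0 ≤ η) (hε : 0 < ε) : ∃ C0 : ℝ,
    14 * m ≤ C0 ∧ ∀ (N : ℝ) (μ : Fin m → ℂ) (Λ : ℂ → ℂ), Dr N μ Λ → ∀ T : ℝ, C0 ≤ Real.log (cnd N μ T) →
      ‖LL μ Λ (1 / 2 + (T : ℂ) * I)‖ ≤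
        Real.exp ((1 / 4 + ε) * Real.log (cnd N μ T) - η / Real.cosh (Real.pi * R) * ni Λ η T R) := by
  obtain ⟨Y0, hY0, HY⟩ := strip_law m hm hε
  obtain ⟨C0, hC0, H⟩ := HY (max Y0 R) (le_max_left _ _)
  refine ⟨C0, hC0, fun N μ Λ hD T hT => ?_⟩
  by_cases h0 : Λ (1 / 2 + (T : ℂ) * I) = 0
  · have : LL μ Λ (1 / 2 + (T : ℂ) * I) = 0 := by
      unfold LL
      rw [h0, zero_mul]
    rw [this, norm_zero]
    exact (Real.exp_pos _).le
  have h1 := H N μ Λ hD T hT h0
  have hT14 : 14 * m ≤ Real.log (cnd N μ T) := hC0.trans hT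
  obtain ⟨hLp, -⟩ := LL_cmp hm hD.1.choose_spec.choose_spec.1.one_le hD.2 Λ T h0
  obtain ⟨K, hK, nd, hel⟩ := Dr.nd_ hm hD hT14
  have hfin := ZT_fin hm hD hT14 (max Y0 R)
  have hfin2 : (IZ Λ η T R).Finite := by
    refine hfin.subset fun s hs => ⟨hs.1, hs.2.2.2.trans (le_max_right _ _)⟩
  have hre : ∀ s ∈ ZT Λ T (max Y0 R), |(s - (1 / 2 + (T : ℂ) * I)).re| ≤ 1 / 2 := by
    intro s hs
    rw [ZT_eq hm hD hT14] at hs
    obtain ⟨u, hu, rfl⟩ := hs
    rw [add_sub_cancel_left]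
    exact nd.zer u ((mem_W nd hK hel).1 hu).1
  have hne : ∀ s, Λ s = 0 → s - (1 / 2 + (T : ℂ) * I) ≠ 0 := fun s hs h => by
    rw [sub_eq_zero] at h
    rw [h] at hs
    exact h0 hs
  have h2 : η / Real.cosh (Real.pi * R) * ni Λ η T R ≤ SW Λ T (max Y0 R) := by
    unfold ni SW
    rw [finsum_mem_eq_finite_toFinset_sum _ hfin2, finsum_mem_eq_finite_toFinset_sum _ hfin]
    push_cast
    rw [Finset.mul_sum]
    have hsub : hfin2.toFinset ⊆ hfin.toFinset := by
      intro s hs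
      rw [Set.Finite.mem_toFinset] at hs ⊢
      exact ⟨hs.1, hs.2.2.2.trans (le_max_right _ _)⟩
    refine le_trans (Finset.sum_le_sum fun s hs => ?_) (Finset.sum_le_sum_of_subset_of_nonneg hsub fun s hs _ => ?_)
    · rw [Set.Finite.mem_toFinset] at hs
      rw [mul_comm]
      apply mul_le_mul_of_nonneg_left _ (Nat.cast_nonneg _)
      have e1 : (s - (1 / 2 + (T : ℂ) * I)).re = s.re - 1 / 2 := by simp
      have e2 : (s - (1 / 2 + (T : ℂ) * I)).im = s.im - T := by simp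
      apply wt_ge hη _ _ (hne s hs.1)
      · rw [e1, abs_le]
        constructor <;> linarith [hs.2.1, hs.2.2.1]
      · rw [e2]
        exact hs.2.2.2
    · rw [Set.Finite.mem_toFinset] at hs
      exact mul_nonneg (Nat.cast_nonneg _) (wt_nonneg le_rfl (hre s hs) (hne s hs.1))
  have h3 := (abs_le.1 h1).2
  rw [← Real.log_le_iff_le_exp hLp]
  linarith

/-- **If the L-function is small then many zeros are away from the edges.** -/
theorem crit_b (m : ℕ) (hm : 1 ≤ m) {δ : ℝ} (hδ : 0 < δ) : ∃ η R C0 : ℝ, 0 < η ∧ η ≤ 1 / 8 ∧ 0 < R ∧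
    14 * m ≤ C0 ∧ ∀ (N : ℝ) (μ : Fin m → ℂ) (Λ : ℂ → ℂ), Dr N μ Λ → ∀ T : ℝ, C0 ≤ Real.log (cnd N μ T) →
      (∀ v : ℝ, |v| ≤ 1 → ‖LL μ Λ (1 / 2 + ((T + v : ℝ) : ℂ) * I)‖ ≤
        Real.exp ((1 / 4 - δ) * Real.log (cnd N μ (T + v)))) →
      η * Real.log (cnd N μ T) ≤ ni Λ η T R := by
  classical
  have hm' : (1 : ℝ) ≤ m := by exact_mod_cast hm
  obtain ⟨Y0, hY0, HY⟩ := strip_law m hm (half_pos hδ)
  obtain ⟨C1, hC1, H⟩ := HY Y0 le_rfl
  obtain ⟨K, hK, HN⟩ := nd_of m hm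
  obtain ⟨n0, hn0⟩ : ∃ n0 : ℝ, n0 = 86000 * K * (1 + (Y0 + 1) ^ 2) := ⟨_, rfl⟩
  have hn00 : 0 < n0 := by rw [hn0]; positivity
  obtain ⟨η, hη⟩ : ∃ η : ℝ, η = min (1 / 8) (min (δ / (64 * n0)) (δ / (4 * (4 * Y0 + 12)))) := ⟨_, rfl⟩
  have hη0 : 0 < η := by
    rw [hη]
    refine lt_min (by norm_num) (lt_min (by positivity) (by positivity))
  have hη8 : η ≤ 1 / 8 := by rw [hη]; exact min_le_left _ _
  have hηn : 16 * η * n0 ≤ δ / 4 := by
    have h1 : η ≤ δ / (64 * n0) := by rw [hη]; exact (min_le_right _ _).trans (min_le_left _ _)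
    rw [le_div_iff₀ (by positivity)] at h1
    linarith
  have hηY : η * (4 * Y0 + 12) ≤ δ / 4 := by
    have h1 : η ≤ δ / (4 * (4 * Y0 + 12)) := by rw [hη]; exact (min_le_right _ _).trans (min_le_right _ _)
    rw [le_div_iff₀ (by positivity)] at h1
    linarith
  obtain ⟨lg, hlg⟩ : ∃ lg : ℝ, lg = m * Real.log (1 + 1) := ⟨_, rfl⟩
  have hlg0 : 0 ≤ lg := by rw [hlg]; exact mul_nonneg (by linarith) (Real.log_nonneg (by norm_num))
  refine ⟨η, Y0 + 1, C1 + 2 * lg + 2 * Y0 + 30 * m + 4, hη0, hη8, by linarith, by linarith,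
    fun N μ Λ hD T hT hyp => ?_⟩
  obtain ⟨L, hL⟩ : ∃ L : ℝ, L = Real.log (cnd N μ T) := ⟨_, rfl⟩
  rw [← hL] at hT ⊢
  have hT14 : 14 * m ≤ Real.log (cnd N μ T) := by rw [← hL]; linarith
  obtain ⟨⟨α, e, d, hnz⟩, hl⟩ := id hD
  have nd := HN N μ α e Λ d hnz T
  obtain ⟨hb1, hb2⟩ := el_bd d.one_le d.re_le T
  rw [← hL] at hb1 hb2
  have hL0 : 0 < L := by linarith
  have hel1 : 1 ≤ el N μ T := by linarith
  have helY : Y0 + 1 ≤ el N μ T := by linarith
  -- the zeros
  have hfin := ZT_fin hm hD hT14 (Y0 + 1)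
  obtain ⟨Z, hZ⟩ : ∃ Z : Finset ℂ, Z = hfin.toFinset := ⟨_, rfl⟩
  have hZm : ∀ {s : ℂ}, s ∈ Z ↔ Λ s = 0 ∧ |s.im - T| ≤ Y0 + 1 := fun {s} => by
    rw [hZ, Set.Finite.mem_toFinset]
    rfl
  have hZre : ∀ s ∈ Z, |s.re - 1 / 2| ≤ 1 / 2 := by
    intro s hs
    have hs' : s ∈ ZT Λ T (Y0 + 1) := hZm.1 hs
    rw [ZT_eq hm hD hT14] at hs'
    obtain ⟨u, hu, rfl⟩ := hs'
    have := nd.zer u ((mem_W nd hK (by linarith)).1 hu).1
    simpa using this
  have hZcount : ∑ s ∈ Z, (analyticOrderNatAt Λ s : ℝ) ≤ n0 * L := by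
    have h1 := low_count nd hK hel1 helY
    rw [← hn0] at h1
    have h2 : ∑ s ∈ Z, (analyticOrderNatAt Λ s : ℝ) = ∑ u ∈ W (fn N μ Λ T) (Y0 + 1), (mu (fn N μ Λ T) u : ℝ) := by
      have h3 : ∑ s ∈ Z, (analyticOrderNatAt Λ s : ℝ) = ∑ᶠ s ∈ ZT Λ T (Y0 + 1), (analyticOrderNatAt Λ s : ℝ) := by
        rw [finsum_mem_eq_finite_toFinset_sum _ hfin, hZ]
      rw [h3, ZT_eq hm hD hT14, finsum_mem_image (fun x _ y _ hxy => by simpa using hxy), finsum_mem_coe_finset]
      refine Finset.sum_congr rfl fun u _ => ?_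
      rw [fn_mu hm d.one_le d.re_le d.entire]
    rw [h2]
    refine h1.trans (mul_le_mul_of_nonneg_left (by linarith) hn00.le)
  obtain ⟨Zi, hZi⟩ : ∃ Zi : Finset ℂ, Zi = Z.filter (fun s => η ≤ s.re ∧ s.re ≤ 1 - η) := ⟨_, rfl⟩
  have hni : (ni Λ η T (Y0 + 1) : ℝ) = ∑ s ∈ Zi, (analyticOrderNatAt Λ s : ℝ) := by
    unfold ni
    have hfin2 : (IZ Λ η T (Y0 + 1)).Finite := hfin.subset (IZ_sub _ _ _ _)
    rw [finsum_mem_eq_finite_toFinset_sum _ hfin2]
    push_cast
    refine Finset.sum_congr ?_ fun _ _ => rfl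
    ext s
    rw [Set.Finite.mem_toFinset, hZi, Finset.mem_filter, hZm]
    exact ⟨fun h => ⟨⟨h.1, h.2.2.2⟩, h.2.1, h.2.2.1⟩, fun h => ⟨h.1.1, h.2.1, h.2.2, h.1.2⟩⟩
  rw [hni]
  obtain ⟨n1, hn1⟩ : ∃ n1 : ℝ, n1 = ∑ s ∈ Zi, (analyticOrderNatAt Λ s : ℝ) := ⟨_, rfl⟩
  rw [← hn1]
  have hn10 : 0 ≤ n1 := by rw [hn1]; exact Finset.sum_nonneg fun _ _ => Nat.cast_nonneg _
  -- the pointwise inequality
  have hpt : ∀ v : ℝ, |v| ≤ 1 → (∀ s ∈ Z, s.im - T - v ≠ 0) → Λ (1 / 2 + ((T + v : ℝ) : ℂ) * I) ≠ 0 →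
      δ / 4 * L ≤ ∑ s ∈ Zi, (analyticOrderNatAt Λ s : ℝ) * (-Real.log ((s.im - T) - v) + 2 * (Y0 + 2)) +
        8 * η * (n0 * L) := by
    intro v hv hne h0
    obtain ⟨g1, g2⟩ := log_near (μ := μ) d.one_le zero_le_one hv (y := T)
    rw [← hL, ← hlg] at g1 g2
    have hTv : C1 ≤ Real.log (cnd N μ (T + v)) := by linarith
    have hlaw := H N μ Λ hD (T + v) hTv h0
    obtain ⟨hLp, -⟩ := LL_cmp hm d.one_le hl Λ (T + v) h0
    have h3 := hyp v hv
    rw [← Real.log_le_iff_le_exp hLp] at h3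
    have h4 := (abs_le.1 hlaw).1
    have h5 : δ / 2 * Real.log (cnd N μ (T + v)) ≤ SW Λ (T + v) Y0 := by linarith
    have h6 : δ / 4 * L ≤ δ / 2 * Real.log (cnd N μ (T + v)) := by
      have : L / 2 ≤ Real.log (cnd N μ (T + v)) := by linarith
      calc δ / 4 * L = δ / 2 * (L / 2) := by ring
        _ ≤ _ := mul_le_mul_of_nonneg_left this (by positivity)
    have hwre : ∀ s ∈ Z, |(s - (1 / 2 + ((T + v : ℝ) : ℂ) * I)).re| ≤ 1 / 2 := fun s hs => by
      have := hZre s hs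
      have e1 : (s - (1 / 2 + ((T + v : ℝ) : ℂ) * I)).re = s.re - 1 / 2 := by simp
      rw [e1]
      exact this
    have hwim : ∀ s : ℂ, (s - (1 / 2 + ((T + v : ℝ) : ℂ) * I)).im = s.im - T - v := fun s => by
      simp
      ring
    have hw0 : ∀ s ∈ Z, s - (1 / 2 + ((T + v : ℝ) : ℂ) * I) ≠ 0 := fun s hs h => by
      have := hwim s
      rw [h] at this
      exact hne s hs this.symm
    have h7 : SW Λ (T + v) Y0 ≤ ∑ s ∈ Z, (analyticOrderNatAt Λ s : ℝ) *
        wt (1 / 2) (s - (1 / 2 + ((T + v : ℝ) : ℂ) * I)) := by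
      have hfv : (ZT Λ (T + v) Y0).Finite := ZT_fin hm hD (by linarith) Y0
      unfold SW
      rw [finsum_mem_eq_finite_toFinset_sum _ hfv]
      refine Finset.sum_le_sum_of_subset_of_nonneg (fun s hs => ?_) fun s hs _ => ?_
      · rw [Set.Finite.mem_toFinset] at hs
        rw [hZm]
        refine ⟨hs.1, ?_⟩
        have e : s.im - T = (s.im - (T + v)) + v := by ring
        rw [e]
        exact (abs_add_le _ _).trans (add_le_add hs.2 hv)
      · exact mul_nonneg (Nat.cast_nonneg _) (wt_nonneg le_rfl (hwre s hs) (hw0 s hs))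
    have h8 : ∑ s ∈ Z, (analyticOrderNatAt Λ s : ℝ) * wt (1 / 2) (s - (1 / 2 + ((T + v : ℝ) : ℂ) * I)) ≤
        ∑ s ∈ Zi, (analyticOrderNatAt Λ s : ℝ) * (-Real.log ((s.im - T) - v) + 2 * (Y0 + 2)) +
        8 * η * (n0 * L) := by
      rw [← Finset.sum_filter_add_sum_filter_not Z (fun s => η ≤ s.re ∧ s.re ≤ 1 - η), ← hZi]
      refine add_le_add (Finset.sum_le_sum fun s hs => ?_) ?_
      · rw [hZi, Finset.mem_filter] at hs
        apply mul_le_mul_of_nonneg_left _ (Nat.cast_nonneg _)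
        have h9 := wt_log (hwre s hs.1) (by rw [hwim]; exact hne s hs.1)
        rw [hwim] at h9
        have h10 : |s.im - T - v| ≤ Y0 + 2 := by
          have := (hZm.1 hs.1).2
          have h11 := abs_sub (s.im - T) v
          linarith
        linarith
      · have h9 : ∑ s ∈ Z.filter (fun s => ¬ (η ≤ s.re ∧ s.re ≤ 1 - η)), (analyticOrderNatAt Λ s : ℝ) *
            wt (1 / 2) (s - (1 / 2 + ((T + v : ℝ) : ℂ) * I)) ≤
            ∑ s ∈ Z.filter (fun s => ¬ (η ≤ s.re ∧ s.re ≤ 1 - η)), (analyticOrderNatAt Λ s : ℝ) * (8 * η) := by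
          refine Finset.sum_le_sum fun s hs => ?_
          rw [Finset.mem_filter] at hs
          apply mul_le_mul_of_nonneg_left _ (Nat.cast_nonneg _)
          apply wt_edge hη8 (hwre s hs.1)
          have e1 : (s - (1 / 2 + ((T + v : ℝ) : ℂ) * I)).re = s.re - 1 / 2 := by simp
          rw [e1]
          rw [not_and_or, not_le, not_le] at hs
          rcases hs.2 with h | h
          · rw [abs_of_nonpos (by linarith)]
            linarith
          · rw [abs_of_nonneg (by linarith)]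
            linarith
        refine h9.trans ?_
        rw [← Finset.sum_mul, mul_comm]
        apply mul_le_mul_of_nonneg_left _ (by positivity)
        refine le_trans ?_ hZcount
        exact Finset.sum_le_sum_of_subset_of_nonneg (Finset.filter_subset _ _) fun _ _ _ => Nat.cast_nonneg _
    linarith
  -- integration
  have hlogi : ∀ a : ℝ, IntervalIntegrable (fun v : ℝ => Real.log (a - v)) volume (-1) 1 := fun a => by
    have h1 : IntervalIntegrable Real.log volume (a - (-1)) (a - 1) := intervalIntegral.intervalIntegrable_log'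
    have h2 := h1.comp_sub_left a
    rwa [sub_sub_cancel, sub_sub_cancel] at h2
  have hlogint : ∀ a : ℝ, ∫ v in (-1 : ℝ)..1, Real.log (a - v) = ∫ x in (a - 1)..(a + 1), Real.log x := fun a => by
    rw [intervalIntegral.integral_comp_sub_left (fun x => Real.log x) a]
    simp
  have hti : ∀ s ∈ Zi, IntervalIntegrable (fun v : ℝ => (analyticOrderNatAt Λ s : ℝ) *
      (-Real.log ((s.im - T) - v) + 2 * (Y0 + 2))) volume (-1) 1 := fun s _ =>
    ((hlogi (s.im - T)).neg.add intervalIntegrable_const).const_mul _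
  have hsi : IntervalIntegrable (fun v : ℝ => ∑ s ∈ Zi, (analyticOrderNatAt Λ s : ℝ) *
      (-Real.log ((s.im - T) - v) + 2 * (Y0 + 2))) volume (-1) 1 := by
    have := IntervalIntegrable.sum Zi hti
    refine this.congr ?_
    intro v _
    simp only [Finset.sum_apply]
  have hgi : IntervalIntegrable (fun v : ℝ => ∑ s ∈ Zi, (analyticOrderNatAt Λ s : ℝ) *
      (-Real.log ((s.im - T) - v) + 2 * (Y0 + 2)) + 8 * η * (n0 * L)) volume (-1) 1 :=
    hsi.add intervalIntegrable_const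
  have hint := intervalIntegral.integral_mono_ae_restrict (μ := volume) (a := (-1 : ℝ)) (b := 1) (by norm_num)
    (f := fun _ => δ / 4 * L) intervalIntegrable_const hgi (by
      rw [Filter.EventuallyLE, ae_restrict_iff' measurableSet_Icc]
      have hE := ((Z.image fun s => s.im - T).finite_toSet.countable).ae_notMem (volume : Measure ℝ)
      filter_upwards [hE] with v hv hv1
      have hv' : |v| ≤ 1 := abs_le.2 ⟨hv1.1, hv1.2⟩
      have hne : ∀ s ∈ Z, s.im - T - v ≠ 0 := by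
        intro s hs h
        apply hv
        rw [Finset.mem_coe, Finset.mem_image]
        exact ⟨s, hs, by linarith⟩
      refine hpt v hv' hne fun h0 => ?_
      refine hne (1 / 2 + ((T + v : ℝ) : ℂ) * I) (hZm.2 ⟨h0, ?_⟩) (by simp)
      have e : (1 / 2 + ((T + v : ℝ) : ℂ) * I).im - T = v := by simp
      rw [e]
      linarith)
  rw [intervalIntegral.integral_const, intervalIntegral.integral_add hsi intervalIntegrable_const,
    intervalIntegral.integral_const, intervalIntegral.integral_finsetSum hti] at hint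
  have hsum : ∑ s ∈ Zi, ∫ v in (-1 : ℝ)..1, (analyticOrderNatAt Λ s : ℝ) *
      (-Real.log ((s.im - T) - v) + 2 * (Y0 + 2)) ≤ n1 * (4 * Y0 + 12) := by
    rw [hn1, Finset.sum_mul]
    refine Finset.sum_le_sum fun s _ => ?_
    rw [intervalIntegral.integral_const_mul]
    apply mul_le_mul_of_nonneg_left _ (Nat.cast_nonneg _)
    have e1 : ∫ v in (-1 : ℝ)..1, (-Real.log ((s.im - T) - v) + 2 * (Y0 + 2)) =
        (∫ v in (-1 : ℝ)..1, -Real.log ((s.im - T) - v)) + ∫ _ in (-1 : ℝ)..1, (2 * (Y0 + 2) : ℝ) :=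
      intervalIntegral.integral_add (hlogi (s.im - T)).neg intervalIntegrable_const
    rw [e1, intervalIntegral.integral_neg, hlogint, intervalIntegral.integral_const, smul_eq_mul]
    have := log_int_ge (s.im - T)
    linarith
  rw [smul_eq_mul, smul_eq_mul] at hint
  have h1 : 16 * η * n0 * L ≤ δ / 4 * L := mul_le_mul_of_nonneg_right hηn hL0.le
  have h2 : η * (4 * Y0 + 12) * L ≤ δ / 4 * L := mul_le_mul_of_nonneg_right hηY hL0.le
  have h3 : (4 * Y0 + 12) * (η * L) ≤ (4 * Y0 + 12) * n1 := by linarith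
  exact le_of_mul_le_mul_left h3 (by linarith)

end Q270SL
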